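import Pool.Agent.Work.MP_74f58b_al.Example

/-!
A one-parameter family of pairwise non-isomorphic indecomposable representations.
-/

namespace Weyman

universe u

variable {K : Type u} [Field K]

def A1 (K : Type u) [Field K] : Matrix (Fin 3) (Fin 2) K := !![1, 0; 0, 1; 0, 0]
def A2 (K : Type u) [Field K] : Matrix (Fin 4) (Fin 3) K :=
  !![1, 0, 0; 0, 1, 0; 0, 0, 1; 0, 0, 0]
def A3 (K : Type u) [Field K] : Matrix (Fin 3) (Fin 4) K :=
  !![0, 1, 0, 0; 0, 0, 1, 0; 0, 0, 0, 1]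
def A4 (K : Type u) [Field K] : Matrix (Fin 2) (Fin 3) K := !![0, 1, 0; 0, 0, 1]
def Ab (K : Type u) [Field K] : Matrix (Fin 4) (Fin 2) K := !![0, 0; 1, 0; 0, 0; 0, 1]
def Ad (c : K) : Matrix (Fin 2) (Fin 2) K := !![1, 1; 1, c]

theorem core (lam mu : K) (f1 : Matrix (Fin 2) (Fin 2) K) (f2 : Matrix (Fin 3) (Fin 3) K)
    (f3 : Matrix (Fin 4) (Fin 4) K) (f4 : Matrix (Fin 3) (Fin 3) K)
    (f5 f6 : Matrix (Fin 2) (Fin 2) K)
    (h1 : (A1 K * f1 : Matrix (Fin 3) (Fin 2) K) = f2 * A1 K)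
    (h2 : (A2 K * f2 : Matrix (Fin 4) (Fin 3) K) = f3 * A2 K)
    (h3 : (A3 K * f3 : Matrix (Fin 3) (Fin 4) K) = f4 * A3 K)
    (h4 : (A4 K * f4 : Matrix (Fin 2) (Fin 3) K) = f5 * A4 K)
    (hb : (Ab K * f6 : Matrix (Fin 4) (Fin 2) K) = f3 * Ab K)
    (hd : (Ad mu * f1 : Matrix (Fin 2) (Fin 2) K) = f5 * Ad lam) :
    ∃ x p q r : K, f1 = !![x, 0; 0, x] ∧ f2 = !![x, 0, p; 0, x, q; 0, 0, x] ∧
      f3 = !![x, 0, p, 0; 0, x, q, r; 0, 0, x, 0; 0, 0, 0, x] ∧
      f4 = !![x, q, r; 0, x, 0; 0, 0, x] ∧ f5 = !![x, 0; 0, x] ∧ f6 = !![x, r; 0, x] ∧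
      mu * x = x * lam := by
  have h1_00 := congrFun (congrFun h1 0) 0
  simp [A1, Matrix.mul_apply, Fin.sum_univ_succ] at h1_00
  have h1_01 := congrFun (congrFun h1 0) 1
  simp [A1, Matrix.mul_apply, Fin.sum_univ_succ] at h1_01
  have h1_10 := congrFun (congrFun h1 1) 0
  simp [A1, Matrix.mul_apply, Fin.sum_univ_succ] at h1_10
  have h1_11 := congrFun (congrFun h1 1) 1
  simp [A1, Matrix.mul_apply, Fin.sum_univ_succ] at h1_11
  have h1_20 := congrFun (congrFun h1 2) 0
  simp [A1, Matrix.mul_apply, Fin.sum_univ_succ] at h1_20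
  have h1_21 := congrFun (congrFun h1 2) 1
  simp [A1, Matrix.mul_apply, Fin.sum_univ_succ] at h1_21
  have h2_00 := congrFun (congrFun h2 0) 0
  simp [A2, Matrix.mul_apply, Fin.sum_univ_succ] at h2_00
  have h2_01 := congrFun (congrFun h2 0) 1
  simp [A2, Matrix.mul_apply, Fin.sum_univ_succ] at h2_01
  have h2_02 := congrFun (congrFun h2 0) 2
  simp [A2, Matrix.mul_apply, Fin.sum_univ_succ] at h2_02
  have h2_10 := congrFun (congrFun h2 1) 0
  simp [A2, Matrix.mul_apply, Fin.sum_univ_succ] at h2_10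
  have h2_11 := congrFun (congrFun h2 1) 1
  simp [A2, Matrix.mul_apply, Fin.sum_univ_succ] at h2_11
  have h2_12 := congrFun (congrFun h2 1) 2
  simp [A2, Matrix.mul_apply, Fin.sum_univ_succ] at h2_12
  have h2_20 := congrFun (congrFun h2 2) 0
  simp [A2, Matrix.mul_apply, Fin.sum_univ_succ] at h2_20
  have h2_21 := congrFun (congrFun h2 2) 1
  simp [A2, Matrix.mul_apply, Fin.sum_univ_succ] at h2_21
  have h2_22 := congrFun (congrFun h2 2) 2
  simp [A2, Matrix.mul_apply, Fin.sum_univ_succ] at h2_22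
  have h2_30 := congrFun (congrFun h2 3) 0
  simp [A2, Matrix.mul_apply, Fin.sum_univ_succ] at h2_30
  have h2_31 := congrFun (congrFun h2 3) 1
  simp [A2, Matrix.mul_apply, Fin.sum_univ_succ] at h2_31
  have h2_32 := congrFun (congrFun h2 3) 2
  simp [A2, Matrix.mul_apply, Fin.sum_univ_succ] at h2_32
  have h3_00 := congrFun (congrFun h3 0) 0
  simp [A3, Matrix.mul_apply, Fin.sum_univ_succ] at h3_00
  have h3_01 := congrFun (congrFun h3 0) 1
  simp [A3, Matrix.mul_apply, Fin.sum_univ_succ] at h3_01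
  have h3_02 := congrFun (congrFun h3 0) 2
  simp [A3, Matrix.mul_apply, Fin.sum_univ_succ] at h3_02
  have h3_03 := congrFun (congrFun h3 0) 3
  simp [A3, Matrix.mul_apply, Fin.sum_univ_succ] at h3_03
  have h3_10 := congrFun (congrFun h3 1) 0
  simp [A3, Matrix.mul_apply, Fin.sum_univ_succ] at h3_10
  have h3_11 := congrFun (congrFun h3 1) 1
  simp [A3, Matrix.mul_apply, Fin.sum_univ_succ] at h3_11
  have h3_12 := congrFun (congrFun h3 1) 2
  simp [A3, Matrix.mul_apply, Fin.sum_univ_succ] at h3_12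
  have h3_13 := congrFun (congrFun h3 1) 3
  simp [A3, Matrix.mul_apply, Fin.sum_univ_succ] at h3_13
  have h3_20 := congrFun (congrFun h3 2) 0
  simp [A3, Matrix.mul_apply, Fin.sum_univ_succ] at h3_20
  have h3_21 := congrFun (congrFun h3 2) 1
  simp [A3, Matrix.mul_apply, Fin.sum_univ_succ] at h3_21
  have h3_22 := congrFun (congrFun h3 2) 2
  simp [A3, Matrix.mul_apply, Fin.sum_univ_succ] at h3_22
  have h3_23 := congrFun (congrFun h3 2) 3
  simp [A3, Matrix.mul_apply, Fin.sum_univ_succ] at h3_23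
  have h4_00 := congrFun (congrFun h4 0) 0
  simp [A4, Matrix.mul_apply, Fin.sum_univ_succ] at h4_00
  have h4_01 := congrFun (congrFun h4 0) 1
  simp [A4, Matrix.mul_apply, Fin.sum_univ_succ] at h4_01
  have h4_02 := congrFun (congrFun h4 0) 2
  simp [A4, Matrix.mul_apply, Fin.sum_univ_succ] at h4_02
  have h4_10 := congrFun (congrFun h4 1) 0
  simp [A4, Matrix.mul_apply, Fin.sum_univ_succ] at h4_10
  have h4_11 := congrFun (congrFun h4 1) 1
  simp [A4, Matrix.mul_apply, Fin.sum_univ_succ] at h4_11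
  have h4_12 := congrFun (congrFun h4 1) 2
  simp [A4, Matrix.mul_apply, Fin.sum_univ_succ] at h4_12
  have hb_00 := congrFun (congrFun hb 0) 0
  simp [Ab, Matrix.mul_apply, Fin.sum_univ_succ] at hb_00
  have hb_01 := congrFun (congrFun hb 0) 1
  simp [Ab, Matrix.mul_apply, Fin.sum_univ_succ] at hb_01
  have hb_10 := congrFun (congrFun hb 1) 0
  simp [Ab, Matrix.mul_apply, Fin.sum_univ_succ] at hb_10
  have hb_11 := congrFun (congrFun hb 1) 1
  simp [Ab, Matrix.mul_apply, Fin.sum_univ_succ] at hb_11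
  have hb_20 := congrFun (congrFun hb 2) 0
  simp [Ab, Matrix.mul_apply, Fin.sum_univ_succ] at hb_20
  have hb_21 := congrFun (congrFun hb 2) 1
  simp [Ab, Matrix.mul_apply, Fin.sum_univ_succ] at hb_21
  have hb_30 := congrFun (congrFun hb 3) 0
  simp [Ab, Matrix.mul_apply, Fin.sum_univ_succ] at hb_30
  have hb_31 := congrFun (congrFun hb 3) 1
  simp [Ab, Matrix.mul_apply, Fin.sum_univ_succ] at hb_31
  have hd_00 := congrFun (congrFun hd 0) 0
  simp [Ad, Matrix.mul_apply, Fin.sum_univ_succ] at hd_00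
  have hd_01 := congrFun (congrFun hd 0) 1
  simp [Ad, Matrix.mul_apply, Fin.sum_univ_succ] at hd_01
  have hd_10 := congrFun (congrFun hd 1) 0
  simp [Ad, Matrix.mul_apply, Fin.sum_univ_succ] at hd_10
  have hd_11 := congrFun (congrFun hd 1) 1
  simp [Ad, Matrix.mul_apply, Fin.sum_univ_succ] at hd_11
  clear h1 h2 h3 h4 hb hd
  have e10 : f1 1 0 = 0 := ((h1_10).trans h2_10).trans h3_00
  have e01 : f1 0 1 = 0 := ((h1_01).trans h2_01).trans hb_00.symm
  have s01 : f5 0 1 = 0 := ((h4_02.symm).trans h3_13.symm).trans hb_21.symm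
  have s10 : f5 1 0 = 0 := ((h4_11.symm).trans h3_22.symm).trans h2_32.symm
  have z0 : f5 0 0 = f1 0 0 := by rw [e10, s01] at hd_00; simpa using hd_00.symm
  have y0 : f1 1 1 = f1 0 0 := by rw [e01, s01, z0] at hd_01; simpa using hd_01
  have w0 : f5 1 1 = f1 0 0 := by rw [e10, s10] at hd_10; simpa using hd_10.symm
  have hl : mu * f1 0 0 = f1 0 0 * lam := by
    rw [e01, s10, y0, w0] at hd_11; simpa using hd_11
  refine ⟨f1 0 0, f2 0 2, f2 1 2, f3 1 3, ?_, ?_, ?_, ?_, ?_, ?_, hl⟩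
  · ext i j
    fin_cases i <;> fin_cases j
    · rfl
    · exact ((h1_01).trans h2_01).trans hb_00.symm
    · exact ((h1_10).trans h2_10).trans h3_00
    · exact y0
  · ext i j
    fin_cases i <;> fin_cases j
    · exact h1_00.symm
    · exact (h2_01).trans hb_00.symm
    · rfl
    · exact (h2_10).trans h3_00
    · exact (h1_11.symm).trans y0
    · rfl
    · exact h1_20.symm
    · exact h1_21.symm
    · exact (((h2_22).trans h3_12).trans h4_01).trans z0
  · ext i j
    fin_cases i <;> fin_cases j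
    · exact (h2_00.symm).trans h1_00.symm
    · exact hb_00.symm
    · exact h2_02.symm
    · exact hb_01.symm
    · exact h3_00
    · exact ((h2_11.symm).trans h1_11.symm).trans y0
    · exact h2_12.symm
    · rfl
    · exact h3_10
    · exact hb_20.symm
    · exact ((h3_12).trans h4_01).trans z0
    · exact hb_21.symm
    · exact h2_30.symm
    · exact h2_31.symm
    · exact h2_32.symm
    · exact ((h3_23).trans h4_12).trans w0
  · ext i j
    fin_cases i <;> fin_cases j
    · exact (((h3_01.symm).trans h2_11.symm).trans h1_11.symm).trans y0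
    · exact (h3_02.symm).trans h2_12.symm
    · exact h3_03.symm
    · exact h4_00
    · exact (h4_01).trans z0
    · exact (h3_13.symm).trans hb_21.symm
    · exact h4_10
    · exact (h3_22.symm).trans h2_32.symm
    · exact (h4_12).trans w0
  · ext i j
    fin_cases i <;> fin_cases j
    · exact z0
    · exact ((h4_02.symm).trans h3_13.symm).trans hb_21.symm
    · exact ((h4_11.symm).trans h3_22.symm).trans h2_32.symm
    · exact w0
  · ext i j
    fin_cases i <;> fin_cases j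
    · exact (((hb_10).trans h2_11.symm).trans h1_11.symm).trans y0
    · exact hb_11
    · exact (hb_30).trans h2_31.symm
    · exact (((hb_31).trans h3_23).trans h4_12).trans w0

theorem core_idem {x p q r : K}
    (h : (!![x, 0, p, 0; 0, x, q, r; 0, 0, x, 0; 0, 0, 0, x] : Matrix (Fin 4) (Fin 4) K) *
      !![x, 0, p, 0; 0, x, q, r; 0, 0, x, 0; 0, 0, 0, x] =
      !![x, 0, p, 0; 0, x, q, r; 0, 0, x, 0; 0, 0, 0, x]) :
    (x = 0 ∨ x = 1) ∧ p = 0 ∧ q = 0 ∧ r = 0 := by
  have h00 := congrFun (congrFun h 0) 0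
  have h02 := congrFun (congrFun h 0) 2
  have h12 := congrFun (congrFun h 1) 2
  have h13 := congrFun (congrFun h 1) 3
  simp [Matrix.mul_apply, Fin.sum_univ_succ] at h00 h02 h12 h13
  have hx : x = 0 ∨ x = 1 := by
    have : x * (x - 1) = 0 := by linear_combination h00
    rcases mul_eq_zero.1 this with h | h
    · exact Or.inl h
    · exact Or.inr (sub_eq_zero.1 h)
  refine ⟨hx, ?_⟩
  rcases hx with rfl | rfl
  · refine ⟨?_, ?_, ?_⟩
    · linear_combination -h02
    · linear_combination -h12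
    · linear_combination -h13
  · refine ⟨?_, ?_, ?_⟩
    · linear_combination h02
    · linear_combination h12
    · linear_combination h13

theorem exists_proj {V : Type} [Quiver.{0} V] {d : V → ℕ} (M : Rep K V d)
    (U W : ∀ a : V, Submodule K (Fin (d a) → K)) (hU : IsSubrep M U) (hW : IsSubrep M W)
    (hc : ∀ a, IsCompl (U a) (W a)) :
    ∃ φ : ∀ a : V, Matrix (Fin (d a)) (Fin (d a)) K,
      (∀ (a b : V) (e : a ⟶ b), M a b e * φ a = φ b * M a b e) ∧ (∀ a, φ a * φ a = φ a) ∧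
      (∀ a, φ a = 0 → U a = ⊥) ∧ (∀ a, φ a = 1 → W a = ⊥) := by
  refine ⟨fun a => LinearMap.toMatrix' ((U a).projection (W a) (hc a)), ?_, ?_, ?_, ?_⟩
  · intro a b e
    have h1 : (M a b e).mulVecLin ∘ₗ (U a).projection (W a) (hc a) =
        (U b).projection (W b) (hc b) ∘ₗ (M a b e).mulVecLin := by
      apply LinearMap.ext
      intro v
      obtain ⟨u, hu, w, hw, rfl⟩ := Submodule.mem_sup.1
        (show v ∈ U a ⊔ W a by rw [(hc a).sup_eq_top]; trivial)
      have hu' : (M a b e).mulVecLin u ∈ U b := hU a b e u hu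
      have hw' : (M a b e).mulVecLin w ∈ W b := hW a b e w hw
      simp only [LinearMap.comp_apply, map_add]
      rw [Submodule.projection_apply_of_mem_left (hc a) hu,
        (Submodule.projection_apply_eq_zero_iff (hc a)).2 hw,
        Submodule.projection_apply_of_mem_left (hc b) hu',
        (Submodule.projection_apply_eq_zero_iff (hc b)).2 hw', map_zero]
    have h2 := congrArg LinearMap.toMatrix' h1
    rw [LinearMap.toMatrix'_comp, LinearMap.toMatrix'_comp, ← Matrix.toLin'_apply',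
      LinearMap.toMatrix'_toLin'] at h2
    exact h2
  · intro a
    rw [← LinearMap.toMatrix'_comp]
    congr 1
    exact Submodule.isIdempotentElem_projection (hc a)
  · intro a h
    have h1 : (U a).projection (W a) (hc a) = 0 := by
      apply LinearMap.toMatrix'.injective
      rw [map_zero]
      exact h
    rw [← Submodule.range_projection (hc a), h1, LinearMap.range_zero]
  · intro a h
    have h1 : (U a).projection (W a) (hc a) = LinearMap.id := by
      apply LinearMap.toMatrix'.injective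
      rw [LinearMap.toMatrix'_id]
      exact h
    rw [← Submodule.ker_projection (hc a), h1, LinearMap.ker_id]

/-- the dimension vector of the family -/
def d0 : Vx → ℕ
  | .v1 => 2
  | .v2 => 3
  | .v3 => 4
  | .v4 => 3
  | .v5 => 2
  | .v6 => 2

/-- the family -/
def Mc (c : K) : Rep K Vx d0 := fun _ _ e =>
  match e with
  | .a1 => A1 K
  | .a2 => A2 K
  | .a3 => A3 K
  | .a4 => A4 K
  | .b => Ab K
  | .dl => Ad c

theorem Mc_mem (c : K) : Mc c ∈ modVar (radPow K Vx 4) d0 := by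
  rw [mem_modVar_iff]
  show (A4 K * (A3 K * (A2 K * A1 K : Matrix (Fin 4) (Fin 2) K) : Matrix (Fin 3) (Fin 2) K) :
    Matrix (Fin 2) (Fin 2) K) = 0
  ext i j
  fin_cases i <;> fin_cases j <;>
    simp [A1, A2, A3, A4, Matrix.mul_apply, Fin.sum_univ_succ]

theorem Mc_indec (c : K) : Indecomposable (Mc c) := by
  refine ⟨⟨.v1, by simp [d0]⟩, ?_⟩
  intro U W hU hW hc
  obtain ⟨φ, h1, h2, h3, h4⟩ := exists_proj (Mc c) U W hU hW hc
  obtain ⟨x, p, q, r, e1, e2, e3, e4, e5, e6, -⟩ := core c c (φ .v1) (φ .v2) (φ .v3) (φ .v4)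
    (φ .v5) (φ .v6) (h1 _ _ Arr.a1) (h1 _ _ Arr.a2) (h1 _ _ Arr.a3) (h1 _ _ Arr.a4)
    (h1 _ _ Arr.b) (h1 _ _ Arr.dl)
  have h5 := h2 .v3
  rw [e3] at h5
  obtain ⟨hx, rfl, rfl, rfl⟩ := core_idem h5
  rcases hx with rfl | rfl
  · left
    intro a
    apply h3
    cases a with
    | v1 => rw [e1]; ext i j; fin_cases i <;> fin_cases j <;> rfl
    | v2 => rw [e2]; ext i j; fin_cases i <;> fin_cases j <;> rfl
    | v3 => rw [e3]; ext i j; fin_cases i <;> fin_cases j <;> rfl
    | v4 => rw [e4]; ext i j; fin_cases i <;> fin_cases j <;> rfl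
    | v5 => rw [e5]; ext i j; fin_cases i <;> fin_cases j <;> rfl
    | v6 => rw [e6]; ext i j; fin_cases i <;> fin_cases j <;> rfl
  · right
    intro a
    apply h4
    cases a with
    | v1 => rw [e1]; ext i j; fin_cases i <;> fin_cases j <;> rfl
    | v2 => rw [e2]; ext i j; fin_cases i <;> fin_cases j <;> rfl
    | v3 => rw [e3]; ext i j; fin_cases i <;> fin_cases j <;> rfl
    | v4 => rw [e4]; ext i j; fin_cases i <;> fin_cases j <;> rfl
    | v5 => rw [e5]; ext i j; fin_cases i <;> fin_cases j <;> rfl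
    | v6 => rw [e6]; ext i j; fin_cases i <;> fin_cases j <;> rfl

theorem Mc_inj {c c' : K} {N : Rep K Vx d0} (h : Mc c ∈ orbit N) (h' : Mc c' ∈ orbit N) :
    c = c' := by
  obtain ⟨g, hg⟩ := h
  obtain ⟨g', hg'⟩ := h'
  -- the base change `g' g⁻¹` carries the first representation to the second
  have key : ∀ (a b : Vx) (e : a ⟶ b), Mc c' a b e * ((g' a).1 * (g a)⁻¹.1) =
      ((g' b).1 * (g b)⁻¹.1) * Mc c a b e := by
    intro a b e
    rw [hg, hg']
    show (g' b).1 * N a b e * (g' a)⁻¹.1 * ((g' a).1 * (g a)⁻¹.1) =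
      (g' b).1 * (g b)⁻¹.1 * ((g b).1 * N a b e * (g a)⁻¹.1)
    have e1 : (g' a)⁻¹.1 * (g' a).1 = 1 := (g' a).inv_mul
    have e2 : (g b)⁻¹.1 * (g b).1 = 1 := (g b).inv_mul
    rw [Matrix.mul_assoc ((g' b).1 * N a b e), ← Matrix.mul_assoc (g' a)⁻¹.1, e1, Matrix.one_mul,
      Matrix.mul_assoc (g' b).1 (g b)⁻¹.1, ← Matrix.mul_assoc (g b)⁻¹.1,
      ← Matrix.mul_assoc (g b)⁻¹.1, e2, Matrix.one_mul, ← Matrix.mul_assoc]
  obtain ⟨x, p, q, r, e1, -, -, -, -, -, hx⟩ := core c c' _ _ _ _ _ _ (key _ _ Arr.a1)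
    (key _ _ Arr.a2) (key _ _ Arr.a3) (key _ _ Arr.a4) (key _ _ Arr.b) (key _ _ Arr.dl)
  have hx0 : x ≠ 0 := by
    rintro rfl
    have h1 : ((g' .v1).1 * (g .v1)⁻¹.1) = 0 := by
      rw [e1]; ext i j; fin_cases i <;> fin_cases j <;> rfl
    have h2 : (g' .v1)⁻¹.1 * ((g' .v1).1 * (g .v1)⁻¹.1) * (g .v1).1 = 1 := by
      have e3 : (g' .v1)⁻¹.1 * (g' .v1).1 = 1 := (g' .v1).inv_mul
      have e4 : (g .v1)⁻¹.1 * (g .v1).1 = 1 := (g .v1).inv_mul
      rw [← Matrix.mul_assoc, e3, Matrix.one_mul, e4]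
    rw [h1, Matrix.mul_zero, Matrix.zero_mul] at h2
    have h3 := congrFun (congrFun h2 (0 : Fin 2)) (0 : Fin 2)
    have h4 : (0 : K) = 1 := h3
    exact zero_ne_one h4
  have h5 : x * (c - c') = 0 := by linear_combination -hx
  rcases mul_eq_zero.1 h5 with h | h
  · exact absurd h hx0
  · exact sub_eq_zero.1 h

theorem not_repFinite [Infinite K] : ¬ RepFinite (radPow K Vx 4) := by
  rintro ⟨S, hS, h⟩
  choose N hN1 hN2 using fun c : K => h d0 (Mc c) (Mc_mem c) (Mc_indec c)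
  refine Set.infinite_of_injective_forall_mem (f := fun c : K => (Sigma.mk d0 (N c) :
    Σ d : Vx → ℕ, Rep K Vx d)) ?_ hN1 hS
  intro c c' hcc
  have h1 : N c = N c' := by
    simpa using hcc
  exact Mc_inj (hN2 c) (h1 ▸ hN2 c')

end Weyman
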