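import Mathlib

/-!
Bound quivers, module varieties, the dense orbit property and representation-finiteness.
-/

namespace Weyman

universe u

/-- A two-sided ideal `J` of the path algebra of a quiver on `V`, given by its components
(the elements of `J` which are combinations of paths from `a` to `b`). -/
structure PathIdeal (K : Type u) [Field K] (V : Type) [Quiver.{0} V] where
  /-- the component of the ideal consisting of combinations of paths from `a` to `b` -/
  part : ∀ a b : V, Submodule K (Quiver.Path a b →₀ K)
  mul_left : ∀ (a b c : V) (e : b ⟶ c) (x : Quiver.Path a b →₀ K), x ∈ part a b →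
    x.mapDomain (fun p => p.cons e) ∈ part a c
  mul_right : ∀ (a b c : V) (e : a ⟶ b) (x : Quiver.Path b c →₀ K), x ∈ part b c →
    x.mapDomain (fun p => e.toPath.comp p) ∈ part a c

/-- Representations with space `K ^ (d a)` at every vertex `a`. -/
def Rep (K : Type u) [Field K] (V : Type) [Quiver.{0} V] (d : V → ℕ) : Type u :=
  ∀ a b : V, (a ⟶ b) → Matrix (Fin (d b)) (Fin (d a)) K

variable {K : Type u} [Field K] {V : Type} [Quiver.{0} V]

/-- The matrix by which a path acts. -/
def Rep.pathMat {d : V → ℕ} (M : Rep K V d) {a : V} : ∀ {b : V}, Quiver.Path a b →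
    Matrix (Fin (d b)) (Fin (d a)) K
  | _, .nil => 1
  | _, .cons p e => M _ _ e * M.pathMat p

/-- The module variety: the representations satisfying all relations in `J`. -/
def modVar (J : PathIdeal K V) (d : V → ℕ) : Set (Rep K V d) :=
  {M | ∀ (a b : V), ∀ x ∈ J.part a b, (x.sum fun p c => c • M.pathMat p) = 0}

/-- The orbit under base change at the vertices. -/
def orbit {d : V → ℕ} (M : Rep K V d) : Set (Rep K V d) :=
  {N | ∃ g : ∀ a : V, Matrix.GeneralLinearGroup (Fin (d a)) K,
    N = fun a b e => (g b).1 * M a b e * (g a)⁻¹.1}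

/-- The matrix entries of representations. -/
structure Coord (V : Type) [Quiver.{0} V] (d : V → ℕ) where
  /-- start of the arrow -/
  src : V
  /-- end of the arrow -/
  tgt : V
  /-- the arrow -/
  arr : src ⟶ tgt
  /-- row of the entry -/
  row : Fin (d tgt)
  /-- column of the entry -/
  col : Fin (d src)

/-- The point of affine space given by a representation. -/
def Rep.coords {d : V → ℕ} (M : Rep K V d) : Coord V d → K :=
  fun c => M c.src c.tgt c.arr c.row c.col

/-- The Zariski closure of a set of representations. -/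
def zclosure {d : V → ℕ} (X : Set (Rep K V d)) : Set (Rep K V d) :=
  {M | ∀ f : MvPolynomial (Coord V d) K,
    (∀ N ∈ X, MvPolynomial.eval N.coords f = 0) → MvPolynomial.eval M.coords f = 0}

/-- Zariski closed sets. -/
def ZClosed {d : V → ℕ} (X : Set (Rep K V d)) : Prop := zclosure X = X

/-- Irreducible sets. -/
def ZIrreducible {d : V → ℕ} (X : Set (Rep K V d)) : Prop :=
  X.Nonempty ∧ ∀ Y Z : Set (Rep K V d), ZClosed Y → ZClosed Z → X ⊆ Y ∪ Z → X ⊆ Y ∨ X ⊆ Z

/-- The irreducible components of `X`: its maximal irreducible closed subsets. -/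
def IsComponent {d : V → ℕ} (C X : Set (Rep K V d)) : Prop :=
  C ⊆ X ∧ ZClosed C ∧ ZIrreducible C ∧
    ∀ C' : Set (Rep K V d), C' ⊆ X → ZClosed C' → ZIrreducible C' → C ⊆ C' → C' = C

/-- The dense orbit property of the quotient of the path algebra by `J`. -/
def DenseOrbits (J : PathIdeal K V) : Prop :=
  ∀ (d : V → ℕ) (C : Set (Rep K V d)), IsComponent C (modVar J d) →
    ∃ M : Rep K V d, orbit M ⊆ C ∧ zclosure (orbit M) = C

/-- Subrepresentations. -/
def IsSubrep {d : V → ℕ} (M : Rep K V d) (U : ∀ a : V, Submodule K (Fin (d a) → K)) : Prop :=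
  ∀ (a b : V) (e : a ⟶ b), ∀ v ∈ U a, (M a b e).mulVec v ∈ U b

/-- Indecomposable representations: nonzero, and in every decomposition as a direct sum of two
subrepresentations one of the two is zero. -/
def Indecomposable {d : V → ℕ} (M : Rep K V d) : Prop :=
  (∃ a, d a ≠ 0) ∧ ∀ U W : ∀ a : V, Submodule K (Fin (d a) → K), IsSubrep M U → IsSubrep M W →
    (∀ a, IsCompl (U a) (W a)) → (∀ a, U a = ⊥) ∨ (∀ a, W a = ⊥)

/-- The quotient of the path algebra by `J` has, up to isomorphism, only finitely many
indecomposable finite-dimensional modules. -/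
def RepFinite (J : PathIdeal K V) : Prop :=
  ∃ S : Set (Σ d : V → ℕ, Rep K V d), S.Finite ∧
    ∀ (d : V → ℕ) (M : Rep K V d), M ∈ modVar J d → Indecomposable M →
      ∃ N : Rep K V d, Sigma.mk d N ∈ S ∧ M ∈ orbit N

/-- Admissible ideals: contained in the combinations of paths of length at least two, and
containing all sufficiently long paths. -/
def Admissible (I : PathIdeal K V) : Prop :=
  (∀ (a b : V), ∀ x ∈ I.part a b, ∀ p ∈ x.support, 2 ≤ p.length) ∧
    ∃ n : ℕ, ∀ (a b : V) (p : Quiver.Path a b), n ≤ p.length → Finsupp.single p 1 ∈ I.part a b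

/-- A quiver without oriented cycles. -/
def Acyclic (V : Type) [Quiver.{0} V] : Prop := ∀ (a : V) (p : Quiver.Path a a), p.length = 0

end Weyman
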