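import Pool.Agent.Work.MP_74f58b_al.Example

/-!
The good representations are dense, and every proper quotient only has good representations.
-/

namespace Weyman

open Module

universe u

variable {K : Type u} [Field K] {d : Vx → ℕ}

theorem mem_Wb {M : Rep K Vx d} (h : M.m4 * (M.m3 * (M.m2 * M.m1)) = 0) (y : Fin (d .v5) → K) :
    y ∈ (toD M h).Wb ↔ ∃ s, M.m4.mulVec (M.m3.mulVec (M.mb.mulVec s)) = y := by
  constructor
  · rintro ⟨_, ⟨_, ⟨s, rfl⟩, rfl⟩, rfl⟩
    exact ⟨s, rfl⟩
  · rintro ⟨s, rfl⟩
    exact ⟨_, ⟨_, ⟨s, rfl⟩, rfl⟩, rfl⟩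

theorem mem_Fb {M : Rep K Vx d} (h : M.m4 * (M.m3 * (M.m2 * M.m1)) = 0) (y : Fin (d .v5) → K) :
    y ∈ (toD M h).Fb ↔ ∃ s, M.m4.mulVec (M.m3.mulVec (M.m2.mulVec s)) = y := by
  constructor
  · rintro ⟨_, ⟨_, ⟨s, rfl⟩, rfl⟩, rfl⟩
    exact ⟨s, rfl⟩
  · rintro ⟨s, rfl⟩
    exact ⟨_, ⟨_, ⟨s, rfl⟩, rfl⟩, rfl⟩

/-- the representation supported on the arrow `6 → 3` -/
def bRep (B : Matrix (Fin (d .v3)) (Fin (d .v6)) K) : Rep K Vx d := fun _ _ e =>
  match e with
  | .a1 => 0
  | .a2 => 0
  | .a3 => 0
  | .a4 => 0
  | .b => B
  | .dl => 0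

theorem mem_zclosure_good [Infinite K] (k : ℕ) : ∀ (M : Rep K Vx d)
    (h : M.m4 * (M.m3 * (M.m2 * M.m1)) = 0), d .v5 ≤ finrank K (toD M h).Wb + k →
    M ∈ zclosure (Good K d) := by
  induction k with
  | zero =>
    intro M h hk
    apply subset_zclosure
    refine ⟨h, 1, ?_⟩
    have h1 : (toD M h).Wb = ⊤ := by
      apply Submodule.eq_top_of_finrank_eq
      have h2 := Submodule.finrank_le (toD M h).Wb
      have h3 : finrank K (Fin (d .v5) → K) = d .v5 := by simp
      omega
    show (toD M h).Fb ≤ (toD M h).Wb
    rw [h1]; exact le_top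
  | succ k ih =>
    intro M h hk
    by_cases hg : ∃ i, kinds (toD M h) i
    · exact subset_zclosure _ ⟨h, hg⟩
    have h0 : ¬ (toD M h).Q1 ≤ (toD M h).P1 := fun h1 => hg ⟨0, h1⟩
    have h1 : ¬ (toD M h).Fb ≤ (toD M h).Wb := fun h1 => hg ⟨1, h1⟩
    obtain ⟨v, hv1, hv2⟩ := SetLike.not_le_iff_exists.1 h0
    obtain ⟨y, hy1, hy2⟩ := SetLike.not_le_iff_exists.1 h1
    obtain ⟨s0, hs0⟩ := hv1
    have hs0' : M.mb.mulVec s0 = M.m2.mulVec (M.m1.mulVec v) := hs0
    have hv2' : ¬ M.m3.mulVec (M.m2.mulVec (M.m1.mulVec v)) = 0 := hv2
    rw [mem_Fb] at hy1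
    obtain ⟨u, hu⟩ := hy1
    have hs00 : s0 ≠ 0 := by
      rintro rfl
      apply hv2'
      rw [← hs0', Matrix.mulVec_zero, Matrix.mulVec_zero]
    obtain ⟨i, hi⟩ := Function.ne_iff.1 hs00
    have hi' : s0 i ≠ 0 := hi
    let B : Matrix (Fin (d .v3)) (Fin (d .v6)) K :=
      Matrix.of fun r c => if c = i then (M.m2.mulVec u) r else 0
    have hB : ∀ s, B.mulVec s = s i • M.m2.mulVec u := by
      intro s
      ext r
      simp [B, Matrix.mulVec, dotProduct, mul_comm]
    refine mem_zclosure_of_line M (bRep B) ?_
    intro t ht
    set N : Rep K Vx d := fun a b e => M a b e + t • bRep B a b e with hN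
    have e1 : N.m1 = M.m1 := by
      show M .v1 .v2 Arr.a1 + t • (0 : Matrix _ _ K) = _
      rw [smul_zero, add_zero]; rfl
    have e2 : N.m2 = M.m2 := by
      show M .v2 .v3 Arr.a2 + t • (0 : Matrix _ _ K) = _
      rw [smul_zero, add_zero]; rfl
    have e3 : N.m3 = M.m3 := by
      show M .v3 .v4 Arr.a3 + t • (0 : Matrix _ _ K) = _
      rw [smul_zero, add_zero]; rfl
    have e4 : N.m4 = M.m4 := by
      show M .v4 .v5 Arr.a4 + t • (0 : Matrix _ _ K) = _
      rw [smul_zero, add_zero]; rfl
    have eb : N.mb = M.mb + t • B := rfl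
    have hNr : N.m4 * (N.m3 * (N.m2 * N.m1)) = 0 := by rw [e1, e2, e3, e4]; exact h
    refine ih N hNr ?_
    -- the image of vertex 6 at vertex 5 grows
    have hα0 : M.m4.mulVec (M.m3.mulVec (M.mb.mulVec s0)) = 0 := by
      rw [hs0']
      have h2 := congrArg (fun A => A.mulVec v) h
      simpa [Matrix.mulVec_mulVec, Matrix.mul_assoc] using h2
    have hNb : ∀ s, N.m4.mulVec (N.m3.mulVec (N.mb.mulVec s)) =
        M.m4.mulVec (M.m3.mulVec (M.mb.mulVec s)) + (t * s i) • y := by
      intro s
      rw [e3, e4, eb, Matrix.add_mulVec, Matrix.smul_mulVec, hB, Matrix.mulVec_add,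
        Matrix.mulVec_add, smul_smul, Matrix.mulVec_smul, Matrix.mulVec_smul, hu]
    have hlt : (toD M h).Wb < (toD N hNr).Wb := by
      refine lt_of_le_of_ne ?_ ?_
      · intro z hz
        rw [mem_Wb] at hz ⊢
        obtain ⟨s, rfl⟩ := hz
        refine ⟨s - (s i / s0 i) • s0, ?_⟩
        rw [hNb]
        have h3 : (s - (s i / s0 i) • s0) i = 0 := by
          simp [hi']
        rw [h3, mul_zero, zero_smul, add_zero, Matrix.mulVec_sub, Matrix.mulVec_smul,
          Matrix.mulVec_sub, Matrix.mulVec_smul, Matrix.mulVec_sub, Matrix.mulVec_smul, hα0,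
          smul_zero, sub_zero]
      · intro heq
        apply hy2
        rw [heq, mem_Wb]
        refine ⟨(t * s0 i)⁻¹ • s0, ?_⟩
        rw [Matrix.mulVec_smul, Matrix.mulVec_smul, Matrix.mulVec_smul, hNb, hα0, zero_add,
          smul_smul, inv_mul_cancel₀ (mul_ne_zero ht hi'), one_smul]
    have h4 := Submodule.finrank_lt_finrank_of_lt hlt
    omega

theorem kinds_of_eval_zero {M : Rep K Vx d} (h : M.m4 * (M.m3 * (M.m2 * M.m1)) = 0)
    {a b : Vx} (p : Quiver.Path a b) (hp : p.length < 4) (h0 : M.pathMat p = 0) :
    ∃ i, kinds (toD M h) i := by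
  -- four sufficient conditions
  have A : (∀ v, M.m3.mulVec (M.m2.mulVec (M.m1.mulVec v)) = 0) → ∃ i, kinds (toD M h) i :=
    fun h1 => ⟨0, fun v _ => h1 v⟩
  have B : (∀ v, M.m4.mulVec (M.m3.mulVec (M.m2.mulVec v)) = 0) → ∃ i, kinds (toD M h) i := by
    refine fun h1 => ⟨1, fun y hy => ?_⟩
    rw [mem_Fb] at hy
    obtain ⟨s, rfl⟩ := hy
    rw [h1]
    exact Submodule.zero_mem _
  have C : (∀ v, M.m4.mulVec (M.m3.mulVec (M.mb.mulVec v)) = 0) → ∃ i, kinds (toD M h) i := by
    refine fun h1 => ⟨2, fun y hy => ?_⟩
    rw [mem_Wb] at hy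
    obtain ⟨s, rfl⟩ := hy
    rw [h1]
    exact Submodule.zero_mem _
  have D : (∀ v, M.md.mulVec v = 0) → ∃ i, kinds (toD M h) i :=
    fun h1 => ⟨3, LinearMap.ext fun v => h1 v⟩
  have h1 : ∀ v, (M.pathMat p).mulVec v = 0 := by
    intro v
    rw [h0, Matrix.zero_mulVec]
  have key : ∀ {b c : Vx} (q : Quiver.Path a b) (e : b ⟶ c) (v : Fin (d a) → K),
      (M.pathMat (q.cons e)).mulVec v = (M b c e).mulVec ((M.pathMat q).mulVec v) := by
    intro b c q e v
    show (M b c e * M.pathMat q).mulVec v = _
    rw [Matrix.mulVec_mulVec]
  have knil : ∀ (v : Fin (d a) → K), (M.pathMat (Quiver.Path.nil : Quiver.Path a a)).mulVec v = v := by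
    intro v
    exact Matrix.one_mulVec v
  cases p with
  | nil =>
    simp only [knil] at h1
    cases a with
    | v1 =>
      apply A
      intro v
      rw [h1 v]; simp
    | v2 =>
      apply A
      intro v
      rw [h1 (M.m1.mulVec v)]; simp
    | v3 =>
      apply B
      intro v
      rw [h1 (M.m2.mulVec v)]; simp
    | v4 =>
      apply A
      intro v
      exact h1 _
    | v5 =>
      apply B
      intro v
      exact h1 _
    | v6 =>
      apply C
      intro v
      rw [h1 v]; simp
  | cons p e =>
    simp only [key] at h1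
    change Arr _ _ at e
    cases e with
    | a1 =>
      have := path_v1 p
      subst this
      cases p with
      | nil =>
        simp only [knil] at h1
        apply A
        intro v
        have h2 : M.m1.mulVec v = 0 := h1 v
        rw [h2]; simp
      | cons p e =>
        change Arr _ _ at e
        cases e
    | dl =>
      have := path_v1 p
      subst this
      cases p with
      | nil =>
        simp only [knil] at h1
        exact D h1
      | cons p e =>
        change Arr _ _ at e
        cases e
    | b =>
      have := path_v6 p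
      subst this
      cases p with
      | nil =>
        simp only [knil] at h1
        apply C
        intro v
        have h2 : M.mb.mulVec v = 0 := h1 v
        rw [h2]; simp
      | cons p e =>
        change Arr _ _ at e
        cases e
    | a2 =>
      cases p with
      | nil =>
        simp only [knil] at h1
        apply B
        intro v
        have h2 : M.m2.mulVec v = 0 := h1 v
        rw [h2]; simp
      | cons p e =>
        simp only [key] at h1
        change Arr _ _ at e
        cases e
        cases p with
        | nil =>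
          simp only [knil] at h1
          apply A
          intro v
          have h2 : M.m2.mulVec (M.m1.mulVec v) = 0 := h1 v
          rw [h2]; simp
        | cons p e =>
          change Arr _ _ at e
          cases e
    | a3 =>
      cases p with
      | nil =>
        simp only [knil] at h1
        apply A
        intro v
        exact h1 _
      | cons p e =>
        simp only [key] at h1
        change Arr _ _ at e
        cases e with
        | b =>
          cases p with
          | nil =>
            simp only [knil] at h1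
            apply C
            intro v
            have h2 : M.m3.mulVec (M.mb.mulVec v) = 0 := h1 v
            rw [h2]; simp
          | cons p e =>
            change Arr _ _ at e
            cases e
        | a2 =>
          cases p with
          | nil =>
            simp only [knil] at h1
            apply A
            intro v
            exact h1 _
          | cons p e =>
            simp only [key] at h1
            change Arr _ _ at e
            cases e
            cases p with
            | nil =>
              simp only [knil] at h1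
              exact A h1
            | cons p e =>
              change Arr _ _ at e
              cases e
    | a4 =>
      cases p with
      | nil =>
        simp only [knil] at h1
        apply B
        intro v
        exact h1 _
      | cons p e =>
        simp only [key] at h1
        change Arr _ _ at e
        cases e
        cases p with
        | nil =>
          simp only [knil] at h1
          apply B
          intro v
          exact h1 _
        | cons p e =>
          simp only [key] at h1
          change Arr _ _ at e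
          cases e with
          | b =>
            cases p with
            | nil =>
              simp only [knil] at h1
              exact C h1
            | cons p e =>
              change Arr _ _ at e
              cases e
          | a2 =>
            cases p with
            | nil =>
              simp only [knil] at h1
              exact B h1
            | cons p e =>
              exfalso
              simp only [Quiver.Path.length] at hp
              omega

/-- Every ideal containing all paths of length four gives a quotient with dense orbits. -/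
theorem denseOrbits [Infinite K] (J : PathIdeal K Vx)
    (hJ : ∀ a b, (radPow K Vx 4).part a b ≤ J.part a b) : DenseOrbits J := by
  classical
  intro d C hC
  obtain ⟨R, hR, hRG, hGR⟩ := exists_finite_good K d
  have hsub : modVar J d ⊆ modVar (radPow K Vx 4) d := fun M hM a b x hx => hM a b x (hJ a b hx)
  refine dense_of_finite (zclosed_modVar J) (R := R ∩ modVar J d) (hR.subset Set.inter_subset_left)
    (fun r hr => orbit_subset_modVar hr.2) ?_ C hC
  by_cases hJI : ∀ a b, J.part a b ≤ (radPow K Vx 4).part a b
  · -- the case of the full algebra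
    have hmod : modVar J d = modVar (radPow K Vx 4) d :=
      Set.Subset.antisymm hsub fun M hM a b x hx => hM a b x (hJI a b hx)
    have hGJ : Good K d ⊆ modVar J d := by
      rintro M ⟨h, -⟩
      rw [hmod, mem_modVar_iff]
      exact h
    have h1 : modVar J d ⊆ zclosure (Good K d) := by
      intro M hM
      rw [hmod, mem_modVar_iff] at hM
      exact mem_zclosure_good (d .v5) M hM (by omega)
    refine h1.trans (zclosure_mono ?_)
    intro M hM
    have h2 := hGR hM
    rw [Set.mem_iUnion₂] at h2 ⊢
    obtain ⟨r, hr, hr'⟩ := h2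
    exact ⟨r, ⟨hr, hGJ (hRG hr)⟩, hr'⟩
  · -- the case of a proper quotient
    push Not at hJI
    obtain ⟨a, b, hab⟩ := hJI
    obtain ⟨x, hx1, hx2⟩ := SetLike.not_le_iff_exists.1 hab
    rw [mem_radPow] at hx2
    push Not at hx2
    obtain ⟨p, hp, hp4⟩ := hx2
    have hgood : modVar J d ⊆ Good K d := by
      intro M hM
      have hMI := mem_modVar_iff.1 (hsub hM)
      have h1 := hM a b x hx1
      rw [Finsupp.sum, Finset.sum_eq_single p] at h1
      · have hxp : x p ≠ 0 := Finsupp.mem_support_iff.1 hp
        have h2 : M.pathMat p = 0 := by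
          rcases smul_eq_zero.1 h1 with h | h
          · exact absurd h hxp
          · exact h
        exact ⟨hMI, kinds_of_eval_zero hMI p hp4 h2⟩
      · intro q _ hqp
        have h3 : 4 ≤ q.length := by
          by_contra h4
          push Not at h4
          exact hqp (path_unique q p h4 hp4)
        rw [eval_long hMI q h3, smul_zero]
      · intro h
        exact absurd hp h
    refine Set.Subset.trans ?_ (subset_zclosure _)
    intro M hM
    have h2 := hGR (hgood hM)
    rw [Set.mem_iUnion₂] at h2 ⊢
    obtain ⟨r, hr, hr'⟩ := h2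
    refine ⟨r, ⟨hr, ?_⟩, hr'⟩
    -- orbits are symmetric
    obtain ⟨g, hg⟩ := hr'
    refine orbit_subset_modVar hM ⟨fun a => (g a)⁻¹, ?_⟩
    funext a b e
    rw [hg]
    show r a b e = (g b)⁻¹.1 * ((g b).1 * r a b e * (g a)⁻¹.1) * ((g a)⁻¹)⁻¹.1
    have e1 : (g b)⁻¹.1 * (g b).1 = 1 := (g b).inv_mul
    have e2 : (g a)⁻¹.1 * ((g a)⁻¹)⁻¹.1 = 1 := ((g a)⁻¹).mul_inv
    rw [Matrix.mul_assoc (g b).1, ← Matrix.mul_assoc (g b)⁻¹.1, e1, Matrix.one_mul,
      Matrix.mul_assoc, e2, Matrix.mul_one]

end Weyman
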