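import Pool.Agent.Work.MP_74f58b_al.Lift

/-!
Representations of the quiver `1 → 2 → 3 → 4 → 5`, `6 → 3`, `1 → 5` with the composition
`1 → 2 → 3 → 4 → 5` zero: two such representations with the same numerical invariants, and both of
the same special kind, are isomorphic.
-/

namespace Weyman

open Submodule Module

universe u

/-- A representation of the bound quiver, by linear maps. -/
structure RData (K : Type u) [Field K] (V1 V2 V3 V4 V5 V6 : Type u)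
    [AddCommGroup V1] [Module K V1] [AddCommGroup V2] [Module K V2] [AddCommGroup V3] [Module K V3]
    [AddCommGroup V4] [Module K V4] [AddCommGroup V5] [Module K V5]
    [AddCommGroup V6] [Module K V6] where
  a1 : V1 →ₗ[K] V2
  a2 : V2 →ₗ[K] V3
  a3 : V3 →ₗ[K] V4
  a4 : V4 →ₗ[K] V5
  b : V6 →ₗ[K] V3
  dl : V1 →ₗ[K] V5
  rel : ∀ v, a4 (a3 (a2 (a1 v))) = 0

variable {K : Type u} [Field K] {V1 V2 V3 V4 V5 V6 : Type u}
    [AddCommGroup V1] [Module K V1] [AddCommGroup V2] [Module K V2] [AddCommGroup V3] [Module K V3]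
    [AddCommGroup V4] [Module K V4] [AddCommGroup V5] [Module K V5]
    [AddCommGroup V6] [Module K V6]

namespace RData

variable (D : RData K V1 V2 V3 V4 V5 V6)

/-- map `1 → 3` -/
def a21 : V1 →ₗ[K] V3 := D.a2 ∘ₗ D.a1
/-- map `1 → 4` -/
def a321 : V1 →ₗ[K] V4 := D.a3 ∘ₗ D.a2 ∘ₗ D.a1
def F : Submodule K V3 := LinearMap.range D.a2
def W : Submodule K V3 := LinearMap.range D.b
def S4 : Submodule K V4 := (D.F ⊓ D.W).map D.a3
def F4 : Submodule K V4 := D.F.map D.a3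
def W4 : Submodule K V4 := D.W.map D.a3
def B4 : Submodule K V4 := (⊤ : Submodule K V3).map D.a3
def E0 : Submodule K V5 := D.S4.map D.a4
def E1 : Submodule K V5 := (D.F4 ⊓ D.W4).map D.a4
def Fb : Submodule K V5 := D.F4.map D.a4
def Wb : Submodule K V5 := D.W4.map D.a4
def I3 : Submodule K V5 := D.B4.map D.a4
def I4 : Submodule K V5 := (⊤ : Submodule K V4).map D.a4
def k1 : Submodule K V1 := LinearMap.ker D.a1
def k2 : Submodule K V1 := LinearMap.ker D.a21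
def P1 : Submodule K V1 := LinearMap.ker D.a321
def Q1 : Submodule K V1 := D.W.comap D.a21
def L : Submodule K V1 := D.S4.comap D.a321
def H : Submodule K V1 := D.W4.comap D.a321

def L1 : ℕ → Submodule K V1
  | 0 => D.k1
  | 1 => D.k2
  | _ => D.P1 ⊓ D.Q1

def U1 : ℕ → Submodule K V1
  | 0 => D.P1 ⊔ D.Q1
  | 1 => D.L
  | 2 => D.H
  | _ => ⊤

def L5 : ℕ → Submodule K V5
  | 0 => D.E0
  | 1 => D.E1
  | _ => D.Fb ⊓ D.Wb

def U5 : ℕ → Submodule K V5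
  | 0 => D.Fb ⊔ D.Wb
  | 1 => D.I3
  | 2 => D.I4
  | _ => ⊤

def A1 : ℕ → Submodule K V1
  | 0 => D.k1
  | 1 => D.k2
  | 2 => D.P1 ⊓ D.Q1
  | 3 => D.P1 ⊔ D.Q1
  | 4 => D.L
  | 5 => D.H
  | _ => ⊤

def B5 : ℕ → Submodule K V5
  | 0 => D.E0
  | 1 => D.E1
  | 2 => D.Fb ⊓ D.Wb
  | 3 => D.Fb ⊔ D.Wb
  | 4 => D.I3
  | 5 => D.I4
  | _ => ⊤

def C5 (i : ℕ) : Submodule K V5 := if i < 7 then (D.A1 i).map D.dl else ⊤

def T5 (i : ℕ) : Submodule K V5 :=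
  if i < 7 then (D.Fb ⊓ D.C5 i) ⊔ (D.Wb ⊓ D.C5 i) else D.U5 (i - 7)

def C1 : ℕ → Submodule K V1
  | 0 => LinearMap.ker D.dl
  | i + 1 => (D.B5 i).comap D.dl

def T1 (i : ℕ) : Submodule K V1 :=
  if i < 7 then (D.P1 ⊓ D.C1 i) ⊔ (D.Q1 ⊓ D.C1 i) else D.U1 (i - 7)

def X4 : ℕ → Submodule K V4
  | 0 => D.S4
  | 1 => D.F4 ⊓ D.W4
  | 2 => D.F4
  | 3 => D.W4
  | 4 => D.B4
  | _ => ⊤

def X3 : ℕ → Submodule K V3
  | 0 => D.F ⊓ D.W
  | 1 => D.F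
  | 2 => D.W
  | _ => ⊤

/-- The numerical invariants. -/
noncomputable def inv (t i j : ℕ) : ℕ :=
  match t with
  | 0 => finrank K ↥(D.L5 i ⊓ D.C5 j)
  | 1 => finrank K ↥(D.Fb ⊓ D.C5 j)
  | 2 => finrank K ↥(D.Wb ⊓ D.C5 j)
  | 3 => finrank K ↥(D.T5 i ⊓ D.C5 j)
  | 4 => finrank K ↥(D.A1 i ⊓ LinearMap.ker D.dl)
  | 5 => finrank K ↥(D.L1 i ⊓ D.C1 j)
  | 6 => finrank K ↥(D.P1 ⊓ D.C1 j)
  | 7 => finrank K ↥(D.Q1 ⊓ D.C1 j)
  | 8 => finrank K ↥(D.T1 i ⊓ D.C1 j)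
  | 9 => finrank K ↥(D.B5 i)
  | 10 => finrank K ↥(D.X4 i ⊓ LinearMap.ker D.a4)
  | 11 => finrank K ↥(D.X3 i ⊓ LinearMap.ker D.a3)
  | 12 => finrank K ↥((⊤ : Submodule K V2) ⊓ LinearMap.ker D.a2)
  | 13 => finrank K ↥((⊤ : Submodule K V6) ⊓ LinearMap.ker D.b)
  | _ => 0

theorem a21_mem (v : V1) : D.a21 v ∈ D.F := ⟨D.a1 v, rfl⟩
theorem a321_mem (v : V1) : D.a321 v ∈ D.F4 := ⟨D.a21 v, D.a21_mem v, rfl⟩
theorem k1_le : D.k1 ≤ D.k2 := by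
  intro v hv
  have h1 : D.a1 v = 0 := hv
  show D.a2 (D.a1 v) = 0
  rw [h1, map_zero]

theorem k2_le : D.k2 ≤ D.P1 ⊓ D.Q1 := by
  intro v hv
  have h1 : D.a21 v = 0 := hv
  refine ⟨?_, ?_⟩
  · show D.a3 (D.a21 v) = 0
    rw [h1, map_zero]
  · show D.a21 v ∈ D.W
    rw [h1]; exact D.W.zero_mem

theorem P1_le : D.P1 ≤ D.L := by
  intro v hv
  have h1 : D.a321 v = 0 := hv
  show D.a321 v ∈ D.S4
  rw [h1]; exact D.S4.zero_mem

theorem Q1_le : D.Q1 ≤ D.L := by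
  intro v hv
  have h1 : D.a21 v ∈ D.W := hv
  exact ⟨D.a21 v, ⟨D.a21_mem v, h1⟩, rfl⟩

theorem S4_le : D.S4 ≤ D.F4 ⊓ D.W4 :=
  le_inf (Submodule.map_mono inf_le_left) (Submodule.map_mono inf_le_right)

theorem F4W4_le : D.F4 ⊔ D.W4 ≤ D.B4 :=
  sup_le (Submodule.map_mono le_top) (Submodule.map_mono le_top)

theorem L_le : D.L ≤ D.H := Submodule.comap_mono (D.S4_le.trans inf_le_right)

theorem E0_le : D.E0 ≤ D.E1 := Submodule.map_mono D.S4_le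

theorem E1_le : D.E1 ≤ D.Fb ⊓ D.Wb :=
  le_inf (Submodule.map_mono inf_le_left) (Submodule.map_mono inf_le_right)

theorem FbWb_le : D.Fb ⊔ D.Wb ≤ D.I3 := by
  rw [Fb, Wb, ← Submodule.map_sup]
  exact Submodule.map_mono D.F4W4_le

theorem I3_le : D.I3 ≤ D.I4 := Submodule.map_mono le_top

theorem mono_L1 : Monotone D.L1 := by
  apply monotone_nat_of_le_succ
  intro n
  match n with
  | 0 => exact D.k1_le
  | 1 => exact D.k2_le
  | _ + 2 => exact le_rfl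

theorem mono_U1 : Monotone D.U1 := by
  apply monotone_nat_of_le_succ
  intro n
  match n with
  | 0 => exact sup_le D.P1_le D.Q1_le
  | 1 => exact D.L_le
  | 2 => exact le_top
  | _ + 3 => exact le_top

theorem mono_L5 : Monotone D.L5 := by
  apply monotone_nat_of_le_succ
  intro n
  match n with
  | 0 => exact D.E0_le
  | 1 => exact D.E1_le
  | _ + 2 => exact le_rfl

theorem mono_U5 : Monotone D.U5 := by
  apply monotone_nat_of_le_succ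
  intro n
  match n with
  | 0 => exact D.FbWb_le
  | 1 => exact D.I3_le
  | 2 => exact le_top
  | _ + 3 => exact le_top

theorem mono_A1 : Monotone D.A1 := by
  apply monotone_nat_of_le_succ
  intro n
  match n with
  | 0 => exact D.k1_le
  | 1 => exact D.k2_le
  | 2 => exact inf_le_left.trans le_sup_left
  | 3 => exact sup_le D.P1_le D.Q1_le
  | 4 => exact D.L_le
  | 5 => exact le_top
  | _ + 6 => exact le_top

theorem mono_B5 : Monotone D.B5 := by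
  apply monotone_nat_of_le_succ
  intro n
  match n with
  | 0 => exact D.E0_le
  | 1 => exact D.E1_le
  | 2 => exact inf_le_left.trans le_sup_left
  | 3 => exact D.FbWb_le
  | 4 => exact D.I3_le
  | 5 => exact le_top
  | _ + 6 => exact le_top

theorem mono_C5 : Monotone D.C5 := by
  intro i j hij
  unfold C5
  split_ifs with h1 h2
  · exact Submodule.map_mono (D.mono_A1 hij)
  · exact le_top
  · omega
  · exact le_rfl

theorem mono_T5 : Monotone D.T5 := by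
  intro i j hij
  unfold T5
  split_ifs with h1 h2
  · exact sup_le_sup (inf_le_inf_left _ (D.mono_C5 hij)) (inf_le_inf_left _ (D.mono_C5 hij))
  · exact (sup_le_sup inf_le_left inf_le_left).trans (D.mono_U5 (Nat.zero_le _))
  · omega
  · exact D.mono_U5 (by omega)

theorem mono_C1 : Monotone D.C1 := by
  apply monotone_nat_of_le_succ
  intro n
  match n with
  | 0 =>
    intro v hv
    have h1 : D.dl v = 0 := hv
    show D.dl v ∈ D.B5 0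
    rw [h1]; exact (D.B5 0).zero_mem
  | n + 1 => exact Submodule.comap_mono (D.mono_B5 (Nat.le_succ n))

theorem mono_T1 : Monotone D.T1 := by
  intro i j hij
  unfold T1
  split_ifs with h1 h2
  · exact sup_le_sup (inf_le_inf_left _ (D.mono_C1 hij)) (inf_le_inf_left _ (D.mono_C1 hij))
  · exact (sup_le_sup inf_le_left inf_le_left).trans (D.mono_U1 (Nat.zero_le _))
  · omega
  · exact D.mono_U1 (by omega)

theorem C1_seven : D.C1 7 = ⊤ := by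
  show (⊤ : Submodule K V5).comap D.dl = ⊤
  exact Submodule.comap_top _

theorem hT5 : ∀ i ≤ 7, D.T5 i = (D.Fb ⊓ D.C5 i) ⊔ (D.Wb ⊓ D.C5 i) := by
  intro i hi
  unfold T5
  split_ifs with h1
  · rfl
  · obtain rfl : i = 7 := by omega
    show D.Fb ⊔ D.Wb = _
    simp [C5]

theorem hT1 : ∀ i ≤ 7, D.T1 i = (D.P1 ⊓ D.C1 i) ⊔ (D.Q1 ⊓ D.C1 i) := by
  intro i hi
  unfold T1
  split_ifs with h1
  · rfl
  · obtain rfl : i = 7 := by omega
    rw [C1_seven]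
    show D.P1 ⊔ D.Q1 = _
    simp

end RData

variable [FiniteDimensional K V1] [FiniteDimensional K V2] [FiniteDimensional K V3]
  [FiniteDimensional K V4] [FiniteDimensional K V5] [FiniteDimensional K V6]

/-- conditions at vertex `1` -/
structure R1 (D D' : RData K V1 V2 V3 V4 V5 V6) (Γ : Submodule K (V1 × V1)) : Prop where
  iso : GIso Γ ⊤ ⊤
  k1 : Resp Γ D.k1 D'.k1
  k2 : Resp Γ D.k2 D'.k2
  P1 : Resp Γ D.P1 D'.P1
  Q1 : Resp Γ D.Q1 D'.Q1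
  L : Resp Γ D.L D'.L
  H : Resp Γ D.H D'.H

/-- conditions at vertex `5` -/
structure R5 (D D' : RData K V1 V2 V3 V4 V5 V6) (Γ : Submodule K (V5 × V5)) : Prop where
  iso : GIso Γ ⊤ ⊤
  E0 : Resp Γ D.E0 D'.E0
  E1 : Resp Γ D.E1 D'.E1
  Fb : Resp Γ D.Fb D'.Fb
  Wb : Resp Γ D.Wb D'.Wb
  I3 : Resp Γ D.I3 D'.I3
  I4 : Resp Γ D.I4 D'.I4

/-- The invariants agree. -/
def SameInv (D D' : RData K V1 V2 V3 V4 V5 V6) : Prop :=
  ∀ t < 14, ∀ i < 11, ∀ j < 11, D.inv t i j = D'.inv t i j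

omit [FiniteDimensional K V1] [FiniteDimensional K V2] [FiniteDimensional K V3]
  [FiniteDimensional K V4] [FiniteDimensional K V6] in
theorem flag5 {D D' : RData K V1 V2 V3 V4 V5 V6} (h : SameInv D D') :
    ∃ Γ : Submodule K (V5 × V5), R5 D D' Γ ∧
      ∀ j < 7, Resp Γ ((D.A1 j).map D.dl) ((D'.A1 j).map D'.dl) := by
  obtain ⟨Γ, g1, g2, g3, g4, g5, g6⟩ := exists_flag D.L5 D.T5 D.C5 D'.L5 D'.T5 D'.C5 D.mono_L5
    D'.mono_L5 D.mono_T5 D'.mono_T5 D.mono_C5 D'.mono_C5 2 7 10 (by norm_num)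
    (P := D.Fb) (Q := D.Wb) (P' := D'.Fb) (Q' := D'.Wb) rfl rfl D.hT5 D'.hT5 rfl rfl
    (fun i hi k hk => h 0 (by norm_num) k (by omega) i (by omega))
    (fun i hi => h 1 (by norm_num) 0 (by norm_num) i (by omega))
    (fun i hi => h 2 (by norm_num) 0 (by norm_num) i (by omega))
    (fun i hi j hj => h 3 (by norm_num) j (by omega) i (by omega)) 7 le_rfl
  refine ⟨Γ, ⟨g1, g2 0 (by norm_num), g2 1 (by norm_num), g3, g4,
    g5 8 (by norm_num) (by norm_num), g5 9 (by norm_num) (by norm_num)⟩, ?_⟩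
  intro j hj
  have h1 := g6 j (by omega)
  unfold RData.C5 at h1
  rwa [if_pos hj, if_pos hj] at h1

omit [FiniteDimensional K V2] [FiniteDimensional K V3]
  [FiniteDimensional K V4] [FiniteDimensional K V5] [FiniteDimensional K V6] in
theorem flag1 {D D' : RData K V1 V2 V3 V4 V5 V6} (h : SameInv D D') :
    ∃ Γ : Submodule K (V1 × V1), R1 D D' Γ ∧ ∀ j ≤ 7, Resp Γ (D.C1 j) (D'.C1 j) := by
  obtain ⟨Γ, g1, g2, g3, g4, g5, g6⟩ := exists_flag D.L1 D.T1 D.C1 D'.L1 D'.T1 D'.C1 D.mono_L1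
    D'.mono_L1 D.mono_T1 D'.mono_T1 D.mono_C1 D'.mono_C1 2 7 10 (by norm_num)
    (P := D.P1) (Q := D.Q1) (P' := D'.P1) (Q' := D'.Q1) rfl rfl D.hT1 D'.hT1 rfl rfl
    (fun i hi k hk => h 5 (by norm_num) k (by omega) i (by omega))
    (fun i hi => h 6 (by norm_num) 0 (by norm_num) i (by omega))
    (fun i hi => h 7 (by norm_num) 0 (by norm_num) i (by omega))
    (fun i hi j hj => h 8 (by norm_num) j (by omega) i (by omega)) 7 le_rfl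
  rw [RData.C1_seven, RData.C1_seven] at g1
  exact ⟨Γ, ⟨g1, g2 0 (by norm_num), g2 1 (by norm_num), g3, g4,
    g5 8 (by norm_num) (by norm_num), g5 9 (by norm_num) (by norm_num)⟩, g6⟩

/-- The two representations are of the same good kind. -/
def SameKind (D D' : RData K V1 V2 V3 V4 V5 V6) : Prop :=
  (D.Q1 ≤ D.P1 ∧ D'.Q1 ≤ D'.P1) ∨ (D.Fb ≤ D.Wb ∧ D'.Fb ≤ D'.Wb) ∨
    (D.Wb ≤ D.Fb ∧ D'.Wb ≤ D'.Fb) ∨ (D.dl = 0 ∧ D'.dl = 0)

omit [FiniteDimensional K V2] [FiniteDimensional K V3]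
  [FiniteDimensional K V4] [FiniteDimensional K V6] in
theorem exists_ends {D D' : RData K V1 V2 V3 V4 V5 V6} (h : SameInv D D') (hk : SameKind D D') :
    ∃ (Γ1 : Submodule K (V1 × V1)) (Γ5 : Submodule K (V5 × V5)), R1 D D' Γ1 ∧ R5 D D' Γ5 ∧
      ∀ x ∈ Γ1, (D.dl x.1, D'.dl x.2) ∈ Γ5 := by
  -- the case of a chain at vertex 5
  have key : (∀ Γ : Submodule K (V5 × V5), Resp Γ (D.Fb ⊓ D.Wb) (D'.Fb ⊓ D'.Wb) →
      Resp Γ (D.Fb ⊔ D.Wb) (D'.Fb ⊔ D'.Wb) → Resp Γ D.Fb D'.Fb ∧ Resp Γ D.Wb D'.Wb) →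
      ∃ (Γ1 : Submodule K (V1 × V1)) (Γ5 : Submodule K (V5 × V5)), R1 D D' Γ1 ∧ R5 D D' Γ5 ∧
      ∀ x ∈ Γ1, (D.dl x.1, D'.dl x.2) ∈ Γ5 := by
    intro hFW
    obtain ⟨Γ1, r1, rC⟩ := flag1 h
    have hpi : PI (Γ1.map (D.dl.prodMap D'.dl)) := by
      rintro _ ⟨x, hx, rfl⟩
      have h1 := rC 0 (by norm_num) x hx
      exact h1
    have hr : ∀ i ≤ 6, Resp (Γ1.map (D.dl.prodMap D'.dl)) (D.B5 i) (D'.B5 i) := by
      rintro i hi _ ⟨x, hx, rfl⟩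
      exact rC (i + 1) (by omega) x hx
    obtain ⟨Γ5, -, g2, g3, g4⟩ := exists_chain hpi le_top D.B5 D'.B5 D.mono_B5 D'.mono_B5 6 hr
      (fun i hi => cov_top (h 9 (by norm_num) i (by omega) 0 (by norm_num)))
    have g2' : GIso Γ5 ⊤ ⊤ := g2
    have hle : Γ1.map (D.dl.prodMap D'.dl) ≤ Γ5 := by
      refine (le_inf le_rfl ?_).trans g3
      intro x _
      exact ⟨trivial, trivial⟩
    obtain ⟨f1, f2⟩ := hFW Γ5 (g4 2 (by norm_num)) (g4 3 (by norm_num))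
    refine ⟨Γ1, Γ5, r1, ⟨g2', g4 0 (by norm_num), g4 1 (by norm_num), f1, f2,
      g4 4 (by norm_num), g4 5 (by norm_num)⟩, ?_⟩
    intro x hx
    exact hle ⟨x, hx, rfl⟩
  rcases hk with ⟨h1, h2⟩ | ⟨h1, h2⟩ | ⟨h1, h2⟩ | ⟨h1, h2⟩
  · obtain ⟨Γ5, r5, rC⟩ := flag5 h
    obtain ⟨Γ1, g1, g2, -, g4⟩ := exists_chain (Γ0 := (⊥ : Submodule K (V1 × V1)))
      (S := Γ5.comap (D.dl.prodMap D'.dl)) PI.bot bot_le D.A1 D'.A1 D.mono_A1 D'.mono_A1 6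
      (fun i _ => Resp.bot _ _)
      (fun i hi => cov_comap r5.iso D.dl D'.dl (rC i (by omega))
        (h 4 (by norm_num) i (by omega) 0 (by norm_num)))
    have g2' : GIso Γ1 ⊤ ⊤ := g2
    have e1 : D.A1 2 = D.Q1 := inf_eq_right.2 h1
    have e2 : D'.A1 2 = D'.Q1 := inf_eq_right.2 h2
    have e3 : D.A1 3 = D.P1 := sup_eq_left.2 h1
    have e4 : D'.A1 3 = D'.P1 := sup_eq_left.2 h2
    have q1 := g4 2 (by norm_num)
    have q2 := g4 3 (by norm_num)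
    rw [e1, e2] at q1
    rw [e3, e4] at q2
    refine ⟨Γ1, Γ5, ⟨g2', g4 0 (by norm_num), g4 1 (by norm_num), q2, q1, g4 4 (by norm_num),
      g4 5 (by norm_num)⟩, r5, ?_⟩
    intro x hx
    exact g1 hx
  · apply key
    intro Γ q1 q2
    rw [inf_eq_left.2 h1, inf_eq_left.2 h2] at q1
    rw [sup_eq_right.2 h1, sup_eq_right.2 h2] at q2
    exact ⟨q1, q2⟩
  · apply key
    intro Γ q1 q2
    rw [inf_eq_right.2 h1, inf_eq_right.2 h2] at q1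
    rw [sup_eq_left.2 h1, sup_eq_left.2 h2] at q2
    exact ⟨q2, q1⟩
  · obtain ⟨Γ5, r5, -⟩ := flag5 h
    obtain ⟨Γ1, r1, -⟩ := flag1 h
    refine ⟨Γ1, Γ5, r1, r5, ?_⟩
    intro x _
    rw [h1, h2]
    exact Γ5.zero_mem

omit [FiniteDimensional K V1] [FiniteDimensional K V5] in
theorem lift_all {D D' : RData K V1 V2 V3 V4 V5 V6} (h : SameInv D D')
    {Γ1 : Submodule K (V1 × V1)} {Γ5 : Submodule K (V5 × V5)} (r1 : R1 D D' Γ1)
    (r5 : R5 D D' Γ5) :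
    ∃ (Γ2 : Submodule K (V2 × V2)) (Γ3 : Submodule K (V3 × V3)) (Γ4 : Submodule K (V4 × V4))
      (Γ6 : Submodule K (V6 × V6)), GIso Γ2 ⊤ ⊤ ∧ GIso Γ3 ⊤ ⊤ ∧ GIso Γ4 ⊤ ⊤ ∧ GIso Γ6 ⊤ ⊤ ∧
      (∀ x ∈ Γ1, (D.a1 x.1, D'.a1 x.2) ∈ Γ2) ∧ (∀ x ∈ Γ2, (D.a2 x.1, D'.a2 x.2) ∈ Γ3) ∧
      (∀ x ∈ Γ3, (D.a3 x.1, D'.a3 x.2) ∈ Γ4) ∧ (∀ x ∈ Γ4, (D.a4 x.1, D'.a4 x.2) ∈ Γ5) ∧
      (∀ x ∈ Γ6, (D.b x.1, D'.b x.2) ∈ Γ3) := by
  -- level 4
  have h10 : ∀ i < 11, finrank K ↥(D.X4 i ⊓ LinearMap.ker D.a4) =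
      finrank K ↥(D'.X4 i ⊓ LinearMap.ker D'.a4) :=
    fun i hi => h 10 (by norm_num) i hi 0 (by norm_num)
  have h11 : ∀ i < 11, finrank K ↥(D.X3 i ⊓ LinearMap.ker D.a3) =
      finrank K ↥(D'.X3 i ⊓ LinearMap.ker D'.a3) :=
    fun i hi => h 11 (by norm_num) i hi 0 (by norm_num)
  have hz : Γ1.map (D.a321.prodMap D'.a321) ≤ Γ5.comap (D.a4.prodMap D'.a4) := by
    rintro _ ⟨x, _, rfl⟩
    have e1 : D.a4 (D.a321 x.1) = 0 := D.rel x.1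
    have e2 : D'.a4 (D'.a321 x.2) = 0 := D'.rel x.2
    show (D.a4 (D.a321 x.1), D'.a4 (D'.a321 x.2)) ∈ Γ5
    rw [e1, e2]
    exact Γ5.zero_mem
  obtain ⟨Γ4, t1, t2, t3, t4, t5, t6, t7⟩ := exists_level
    (Γ0 := Γ1.map (D.a321.prodMap D'.a321)) (S := Γ5.comap (D.a4.prodMap D'.a4))
    (X := D.S4) (F := D.F4) (W := D.W4) (B := D.B4) (X' := D'.S4) (F' := D'.F4) (W' := D'.W4)
    (B' := D'.B4)
    (by rintro _ ⟨x, hx, rfl⟩; exact r1.P1 x hx) hz D.S4_le D'.S4_le D.F4W4_le D'.F4W4_le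
    (by rintro _ ⟨x, hx, rfl⟩; exact ⟨D.a321_mem _, D'.a321_mem _⟩)
    (by rintro _ ⟨x, hx, rfl⟩; exact r1.L x hx) (by rintro _ ⟨x, hx, rfl⟩; exact r1.H x hx)
    (cov_comap r5.iso _ _ r5.E0 (h10 0 (by norm_num)))
    (cov_comap r5.iso _ _ r5.E1 (h10 1 (by norm_num)))
    (cov_comap r5.iso _ _ r5.Fb (h10 2 (by norm_num)))
    (cov_comap r5.iso _ _ r5.Wb (h10 3 (by norm_num)))
    (cov_comap r5.iso _ _ r5.I3 (h10 4 (by norm_num)))
    (cov_comap r5.iso _ _ r5.I4 (h10 5 (by norm_num)))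
  -- level 3
  have hz3 : Γ1.map (D.a21.prodMap D'.a21) ≤ Γ4.comap (D.a3.prodMap D'.a3) := by
    rintro _ ⟨x, hx, rfl⟩
    exact t1 ⟨x, hx, rfl⟩
  obtain ⟨Γ3, s1, s2, s3, s4, s5, s6, -⟩ := exists_level
    (Γ0 := Γ1.map (D.a21.prodMap D'.a21)) (S := Γ4.comap (D.a3.prodMap D'.a3))
    (X := D.F ⊓ D.W) (F := D.F) (W := D.W) (B := ⊤) (X' := D'.F ⊓ D'.W) (F' := D'.F)
    (W' := D'.W) (B' := ⊤)
    (by rintro _ ⟨x, hx, rfl⟩; exact r1.k2 x hx) hz3 le_rfl le_rfl le_top le_top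
    (by rintro _ ⟨x, hx, rfl⟩; exact ⟨D.a21_mem _, D'.a21_mem _⟩)
    (by
      rintro _ ⟨x, hx, rfl⟩
      have e1 := r1.Q1 x hx
      exact ⟨fun q => ⟨D'.a21_mem _, e1.1 q.2⟩, fun q => ⟨D.a21_mem _, e1.2 q.2⟩⟩)
    (by rintro _ ⟨x, hx, rfl⟩; exact r1.Q1 x hx)
    (cov_comap t3 _ _ t4 (h11 0 (by norm_num)))
    (cov_comap t3 _ _ t4 (h11 0 (by norm_num)))
    (cov_comap t3 _ _ t5 (h11 1 (by norm_num)))
    (cov_comap t3 _ _ t6 (h11 2 (by norm_num)))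
    (cov_comap t3 _ _ t7 (h11 3 (by norm_num)))
    (cov_comap t3 _ _ t7 (h11 3 (by norm_num)))
  -- level 2
  have eF : (⊤ : Submodule K V2).map D.a2 = D.F := Submodule.map_top _
  have eF' : (⊤ : Submodule K V2).map D'.a2 = D'.F := Submodule.map_top _
  have eW : (⊤ : Submodule K V6).map D.b = D.W := Submodule.map_top _
  have eW' : (⊤ : Submodule K V6).map D'.b = D'.W := Submodule.map_top _
  obtain ⟨Γ2, w1, w2, w3⟩ := exists_ext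
    (Γ := Γ1.map (D.a1.prodMap D'.a1)) (S := Γ3.comap (D.a2.prodMap D'.a2)) (A := ⊤) (A' := ⊤)
    (by rintro _ ⟨x, hx, rfl⟩; exact r1.k1 x hx)
    (by rintro _ ⟨x, hx, rfl⟩; exact s1 ⟨x, hx, rfl⟩)
    (by intro x _; exact ⟨trivial, trivial⟩)
    (cov_comap s3 _ _ (by rw [eF, eF']; exact s5)
      (h 12 (by norm_num) 0 (by norm_num) 0 (by norm_num)))
  -- level 6
  obtain ⟨Γ6, v1, v2, v3⟩ := exists_ext
    (Γ := (⊥ : Submodule K (V6 × V6))) (S := Γ3.comap (D.b.prodMap D'.b)) (A := ⊤) (A' := ⊤)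
    PI.bot bot_le bot_le
    (cov_comap s3 _ _ (by rw [eW, eW']; exact s6)
      (h 13 (by norm_num) 0 (by norm_num) 0 (by norm_num)))
  exact ⟨Γ2, Γ3, Γ4, Γ6, w3, s3, t3, v3, fun x hx => w1 ⟨x, hx, rfl⟩, fun x hx => w2 hx,
    fun x hx => s2 hx, fun x hx => t2 hx, fun x hx => v2 hx⟩

/-- The linear equivalence with a given graph. -/
theorem GIso.exists_equiv {V : Type u} [AddCommGroup V] [Module K V] {Γ : Submodule K (V × V)}
    (h : GIso Γ ⊤ ⊤) : ∃ e : V ≃ₗ[K] V, ∀ v w, (v, w) ∈ Γ ↔ e v = w := by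
  choose f hf using fun v => h.sur1 v trivial
  choose g hg using fun v => h.sur2 v trivial
  have hf' : ∀ v w, (v, w) ∈ Γ ↔ f v = w := by
    intro v w
    constructor
    · intro h1
      exact h.pi.ext1 (hf v) h1
    · rintro rfl
      exact hf v
  refine ⟨
    { toFun := f
      invFun := g
      map_add' := ?_
      map_smul' := ?_
      left_inv := ?_
      right_inv := ?_ }, hf'⟩
  · intro x y
    rw [← hf']
    exact Γ.add_mem (hf x) (hf y)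
  · intro c x
    rw [← hf']
    exact Γ.smul_mem c (hf x)
  · intro x
    exact h.pi.ext2 (hg (f x)) (hf x)
  · intro x
    rw [← hf']
    exact hg x

/-- Two representations of the same good kind with the same invariants are isomorphic. -/
theorem exists_iso {D D' : RData K V1 V2 V3 V4 V5 V6} (h : SameInv D D') (hk : SameKind D D') :
    ∃ (e1 : V1 ≃ₗ[K] V1) (e2 : V2 ≃ₗ[K] V2) (e3 : V3 ≃ₗ[K] V3) (e4 : V4 ≃ₗ[K] V4)
      (e5 : V5 ≃ₗ[K] V5) (e6 : V6 ≃ₗ[K] V6),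
      (∀ v, e2 (D.a1 v) = D'.a1 (e1 v)) ∧ (∀ v, e3 (D.a2 v) = D'.a2 (e2 v)) ∧
      (∀ v, e4 (D.a3 v) = D'.a3 (e3 v)) ∧ (∀ v, e5 (D.a4 v) = D'.a4 (e4 v)) ∧
      (∀ v, e3 (D.b v) = D'.b (e6 v)) ∧ (∀ v, e5 (D.dl v) = D'.dl (e1 v)) := by
  obtain ⟨Γ1, Γ5, r1, r5, hd⟩ := exists_ends h hk
  obtain ⟨Γ2, Γ3, Γ4, Γ6, i2, i3, i4, i6, c1, c2, c3, c4, c6⟩ := lift_all h r1 r5
  obtain ⟨e1, g1⟩ := r1.iso.exists_equiv
  obtain ⟨e5, g5⟩ := r5.iso.exists_equiv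
  obtain ⟨e2, g2⟩ := i2.exists_equiv
  obtain ⟨e3, g3⟩ := i3.exists_equiv
  obtain ⟨e4, g4⟩ := i4.exists_equiv
  obtain ⟨e6, g6⟩ := i6.exists_equiv
  refine ⟨e1, e2, e3, e4, e5, e6, ?_, ?_, ?_, ?_, ?_, ?_⟩
  · intro v; exact (g2 _ _).1 (c1 (v, e1 v) ((g1 _ _).2 rfl))
  · intro v; exact (g3 _ _).1 (c2 (v, e2 v) ((g2 _ _).2 rfl))
  · intro v; exact (g4 _ _).1 (c3 (v, e3 v) ((g3 _ _).2 rfl))
  · intro v; exact (g5 _ _).1 (c4 (v, e4 v) ((g4 _ _).2 rfl))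
  · intro v; exact (g3 _ _).1 (c6 (v, e6 v) ((g6 _ _).2 rfl))
  · intro v; exact (g5 _ _).1 (hd (v, e1 v) ((g1 _ _).2 rfl))

end Weyman
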