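import Pool.Agent.Work.MP_74f58b_al.Geom
import Pool.Agent.Work.MP_74f58b_al.Iso

/-!
The quiver `1 → 2 → 3 → 4 → 5`, `6 → 3`, `1 → 5`, with all paths of length four zero.
-/

namespace Weyman

open Module

universe u

/-- vertices -/
inductive Vx : Type
  | v1 | v2 | v3 | v4 | v5 | v6

/-- arrows -/
inductive Arr : Vx → Vx → Type
  | a1 : Arr .v1 .v2
  | a2 : Arr .v2 .v3
  | a3 : Arr .v3 .v4
  | a4 : Arr .v4 .v5
  | b : Arr .v6 .v3
  | dl : Arr .v1 .v5

instance quiverVx : Quiver.{0} Vx := ⟨Arr⟩

/-- combinations of paths of length at least `n` -/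
def radPow (K : Type u) [Field K] (V : Type) [Quiver.{0} V] (n : ℕ) : PathIdeal K V where
  part a b := Finsupp.supported K K {p : Quiver.Path a b | n ≤ p.length}
  mul_left := by
    classical
    intro a b c e x hx
    rw [Finsupp.mem_supported] at hx ⊢
    intro q hq
    have h1 := Finsupp.mapDomain_support hq
    rw [Finset.mem_image] at h1
    obtain ⟨p, hp, rfl⟩ := h1
    have h2 : n ≤ p.length := hx hp
    show n ≤ p.length + 1
    omega
  mul_right := by
    classical
    intro a b c e x hx
    rw [Finsupp.mem_supported] at hx ⊢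
    intro q hq
    have h1 := Finsupp.mapDomain_support hq
    rw [Finset.mem_image] at h1
    obtain ⟨p, hp, rfl⟩ := h1
    have h2 : n ≤ p.length := hx hp
    show n ≤ (e.toPath.comp p).length
    rw [Quiver.Path.length_comp]
    omega

theorem mem_radPow {K : Type u} [Field K] {V : Type} [Quiver.{0} V] {n : ℕ} {a b : V}
    {x : Quiver.Path a b →₀ K} : x ∈ (radPow K V n).part a b ↔ ∀ p ∈ x.support, n ≤ p.length := by
  show x ∈ Finsupp.supported K K {p : Quiver.Path a b | n ≤ p.length} ↔ _
  rw [Finsupp.mem_supported]
  exact Iff.rfl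

theorem mem_modVar_radPow {K : Type u} [Field K] {V : Type} [Quiver.{0} V] {n : ℕ} {d : V → ℕ}
    {M : Rep K V d} : M ∈ modVar (radPow K V n) d ↔
      ∀ (a b : V) (p : Quiver.Path a b), n ≤ p.length → M.pathMat p = 0 := by
  constructor
  · intro h a b p hp
    have h1 := h a b (Finsupp.single p 1) (mem_radPow.2 fun q hq => by
      have := Finsupp.support_single_subset hq
      rw [Finset.mem_singleton] at this
      rw [this]; exact hp)
    rwa [Finsupp.sum_single_index (by simp), one_smul] at h1
  · intro h a b x hx
    rw [mem_radPow] at hx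
    rw [Finsupp.sum]
    refine Finset.sum_eq_zero fun p hp => ?_
    rw [h a b p (hx p hp), smul_zero]

/-- height of the vertices -/
def ht : Vx → ℕ
  | .v1 => 0
  | .v2 => 1
  | .v3 => 2
  | .v4 => 3
  | .v5 => 4
  | .v6 => 1

theorem ht_path {a b : Vx} (p : Quiver.Path a b) : ht a + p.length ≤ ht b := by
  induction p with
  | nil => exact le_rfl
  | @cons b c p e ih =>
    have h1 : ht b + 1 ≤ ht c := by
      have e' : Arr b c := e
      cases e' <;> simp [ht]
    show ht a + (p.length + 1) ≤ ht c
    omega

theorem acyclic_Vx : Acyclic Vx := by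
  intro a p
  have := ht_path p
  omega

theorem admissible_radPow {K : Type u} [Field K] : Admissible (radPow K Vx 4) := by
  refine ⟨fun a b x hx p hp => ?_, 4, fun a b p hp => ?_⟩
  · have := mem_radPow.1 hx p hp
    omega
  · rw [mem_radPow]
    intro q hq
    have := Finsupp.support_single_subset hq
    rw [Finset.mem_singleton] at this
    rw [this]; exact hp

instance finite_arr (a b : Vx) : Finite (a ⟶ b) := by
  have : Subsingleton (a ⟶ b) := by
    constructor
    intro x y
    change Arr a b at x y
    cases x <;> cases y <;> rfl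
  exact Finite.of_subsingleton

instance finite_Vx : Finite Vx := by
  refine Finite.of_injective (β := Fin 6) (fun v => match v with
    | .v1 => 0 | .v2 => 1 | .v3 => 2 | .v4 => 3 | .v5 => 4 | .v6 => 5) ?_
  intro a b h
  cases a <;> cases b <;> simp_all

theorem path_v1 {a : Vx} (p : Quiver.Path a .v1) : a = .v1 := by
  cases p with
  | nil => rfl
  | cons p e =>
    change Arr _ _ at e
    cases e

theorem path_v6 {a : Vx} (p : Quiver.Path a .v6) : a = .v6 := by
  cases p with
  | nil => rfl
  | cons p e =>
    change Arr _ _ at e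
    cases e

theorem path_v6_v2 (p : Quiver.Path Vx.v6 .v2) : False := by
  have := ht_path p
  cases p with
  | cons p e =>
    change Arr _ _ at e
    cases e
    have := path_v1 p
    cases this

theorem path_v1_v4 (p : Quiver.Path Vx.v1 .v4) : p.length = 3 := by
  cases p with
  | cons p e =>
    change Arr _ _ at e
    cases e
    cases p with
    | cons p e =>
      change Arr _ _ at e
      cases e with
      | a2 =>
        cases p with
        | cons p e =>
          change Arr _ _ at e
          cases e
          cases p with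
          | nil => rfl
          | cons p e =>
            change Arr _ _ at e
            cases e
      | b =>
        have := path_v6 p
        cases this

theorem path_unique {a b : Vx} (p q : Quiver.Path a b) (hp : p.length < 4) (hq : q.length < 4) :
    p = q := by
  induction p with
  | nil =>
    cases q with
    | nil => rfl
    | cons q e =>
      have := acyclic_Vx a (q.cons e)
      simp [Quiver.Path.length] at this
  | @cons b c p e ih =>
    have hp' : p.length < 4 := by
      have : (p.cons e).length = p.length + 1 := rfl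
      omega
    cases q with
    | nil =>
      have := acyclic_Vx _ (p.cons e)
      simp [Quiver.Path.length] at this
    | @cons b' _ q e' =>
      have hq' : q.length < 4 := by
        have : (q.cons e').length = q.length + 1 := rfl
        omega
      change Arr _ _ at e
      cases e with
      | a1 =>
        change Arr _ _ at e'
        cases e' with
        | a1 => rw [ih q hp' hq']
      | a2 =>
        change Arr _ _ at e'
        cases e' with
        | a2 => rw [ih q hp' hq']
        | b =>
          have := path_v6 q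
          subst this
          exact (path_v6_v2 p).elim
      | a3 =>
        change Arr _ _ at e'
        cases e' with
        | a3 => rw [ih q hp' hq']
      | a4 =>
        change Arr _ _ at e'
        cases e' with
        | a4 => rw [ih q hp' hq']
        | dl =>
          have := path_v1 q
          subst this
          have h1 := path_v1_v4 p
          have h2 : (p.cons Arr.a4).length = p.length + 1 := rfl
          omega
      | b =>
        change Arr _ _ at e'
        cases e' with
        | b => rw [ih q hp' hq']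
        | a2 =>
          have := path_v6 p
          subst this
          exact (path_v6_v2 q).elim
      | dl =>
        change Arr _ _ at e'
        cases e' with
        | dl => rw [ih q hp' hq']
        | a4 =>
          have := path_v1 p
          subst this
          have h1 := path_v1_v4 q
          have h2 : (q.cons Arr.a4).length = q.length + 1 := rfl
          omega

variable {K : Type u} [Field K] {d : Vx → ℕ}

/-- the matrices of a representation -/
def Rep.m1 (M : Rep K Vx d) : Matrix (Fin (d .v2)) (Fin (d .v1)) K := M .v1 .v2 Arr.a1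
def Rep.m2 (M : Rep K Vx d) : Matrix (Fin (d .v3)) (Fin (d .v2)) K := M .v2 .v3 Arr.a2
def Rep.m3 (M : Rep K Vx d) : Matrix (Fin (d .v4)) (Fin (d .v3)) K := M .v3 .v4 Arr.a3
def Rep.m4 (M : Rep K Vx d) : Matrix (Fin (d .v5)) (Fin (d .v4)) K := M .v4 .v5 Arr.a4
def Rep.mb (M : Rep K Vx d) : Matrix (Fin (d .v3)) (Fin (d .v6)) K := M .v6 .v3 Arr.b
def Rep.md (M : Rep K Vx d) : Matrix (Fin (d .v5)) (Fin (d .v1)) K := M .v1 .v5 Arr.dl

theorem eval_long {M : Rep K Vx d} (h : M.m4 * (M.m3 * (M.m2 * M.m1)) = 0) {a b : Vx}
    (p : Quiver.Path a b) (hp : 4 ≤ p.length) : M.pathMat p = 0 := by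
  have h0 := ht_path p
  have h0a : 4 ≤ ht b := by omega
  have hb : b = .v5 := by cases b <;> simp [ht] at h0a ⊢
  subst hb
  have h0b : ht a = 0 := by
    have : ht Vx.v5 = 4 := rfl
    omega
  have ha : a = .v1 := by cases a <;> simp [ht] at h0b ⊢
  subst ha
  cases p with
  | cons p e =>
    change Arr _ _ at e
    cases e with
    | dl =>
      cases p with
      | nil => simp [Quiver.Path.length] at hp
      | cons p e =>
        change Arr _ _ at e
        cases e
    | a4 =>
      cases p with
      | cons p e =>
        change Arr _ _ at e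
        cases e
        cases p with
        | cons p e =>
          change Arr _ _ at e
          cases e with
          | b =>
            have := path_v6 p
            cases this
          | a2 =>
            cases p with
            | cons p e =>
              change Arr _ _ at e
              cases e
              cases p with
              | nil =>
                show M.m4 * (M.m3 * (M.m2 * (M.m1 * (1 : Matrix (Fin (d .v1)) (Fin (d .v1)) K)))) = 0
                rw [Matrix.mul_one]; exact h
              | cons p e =>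
                change Arr _ _ at e
                cases e

theorem mem_modVar_iff {M : Rep K Vx d} : M ∈ modVar (radPow K Vx 4) d ↔
    M.m4 * (M.m3 * (M.m2 * M.m1)) = 0 := by
  rw [mem_modVar_radPow]
  constructor
  · intro h
    have h1 := h .v1 .v5 ((((Quiver.Path.nil.cons Arr.a1).cons Arr.a2).cons Arr.a3).cons Arr.a4)
      le_rfl
    have h2 : M.m4 * (M.m3 * (M.m2 * (M.m1 * (1 : Matrix (Fin (d .v1)) (Fin (d .v1)) K)))) = 0 := h1
    rwa [Matrix.mul_one] at h2
  · intro h a b p hp
    exact eval_long h p hp

/-- The representation by linear maps attached to a representation by matrices. -/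
def toD (M : Rep K Vx d) (h : M.m4 * (M.m3 * (M.m2 * M.m1)) = 0) :
    RData K (Fin (d .v1) → K) (Fin (d .v2) → K) (Fin (d .v3) → K) (Fin (d .v4) → K)
      (Fin (d .v5) → K) (Fin (d .v6) → K) where
  a1 := M.m1.mulVecLin
  a2 := M.m2.mulVecLin
  a3 := M.m3.mulVecLin
  a4 := M.m4.mulVecLin
  b := M.mb.mulVecLin
  dl := M.md.mulVecLin
  rel := by
    intro v
    simp only [Matrix.mulVecLin_apply, Matrix.mulVec_mulVec]
    rw [h, Matrix.zero_mulVec]

/-- the good kinds -/
def kinds {V1 V2 V3 V4 V5 V6 : Type u}
    [AddCommGroup V1] [Module K V1] [AddCommGroup V2] [Module K V2] [AddCommGroup V3] [Module K V3]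
    [AddCommGroup V4] [Module K V4] [AddCommGroup V5] [Module K V5]
    [AddCommGroup V6] [Module K V6] (D : RData K V1 V2 V3 V4 V5 V6) : Fin 4 → Prop
  | 0 => D.Q1 ≤ D.P1
  | 1 => D.Fb ≤ D.Wb
  | 2 => D.Wb ≤ D.Fb
  | 3 => D.dl = 0

/-- The good representations. -/
def Good (K : Type u) [Field K] (d : Vx → ℕ) : Set (Rep K Vx d) :=
  {M | ∃ h : M.m4 * (M.m3 * (M.m2 * M.m1)) = 0, ∃ i, kinds (toD M h) i}

theorem sameKind {V1 V2 V3 V4 V5 V6 : Type u}
    [AddCommGroup V1] [Module K V1] [AddCommGroup V2] [Module K V2] [AddCommGroup V3] [Module K V3]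
    [AddCommGroup V4] [Module K V4] [AddCommGroup V5] [Module K V5]
    [AddCommGroup V6] [Module K V6] {D D' : RData K V1 V2 V3 V4 V5 V6} {i : Fin 4}
    (h : kinds D i) (h' : kinds D' i) : SameKind D D' := by
  fin_cases i
  · exact Or.inl ⟨h, h'⟩
  · exact Or.inr (Or.inl ⟨h, h'⟩)
  · exact Or.inr (Or.inr (Or.inl ⟨h, h'⟩))
  · exact Or.inr (Or.inr (Or.inr ⟨h, h'⟩))

theorem inv_le {V1 V2 V3 V4 V5 V6 : Type u}
    [AddCommGroup V1] [Module K V1] [AddCommGroup V2] [Module K V2] [AddCommGroup V3] [Module K V3]
    [AddCommGroup V4] [Module K V4] [AddCommGroup V5] [Module K V5]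
    [AddCommGroup V6] [Module K V6] [FiniteDimensional K V1] [FiniteDimensional K V2]
    [FiniteDimensional K V3] [FiniteDimensional K V4] [FiniteDimensional K V5]
    [FiniteDimensional K V6] (D : RData K V1 V2 V3 V4 V5 V6) (t i j : ℕ) :
    D.inv t i j ≤ finrank K V1 + finrank K V2 + finrank K V3 + finrank K V4 + finrank K V5 +
      finrank K V6 := by
  unfold RData.inv
  split
  · exact (Submodule.finrank_le _).trans (by omega)
  · exact (Submodule.finrank_le _).trans (by omega)
  · exact (Submodule.finrank_le _).trans (by omega)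
  · exact (Submodule.finrank_le _).trans (by omega)
  · exact (Submodule.finrank_le _).trans (by omega)
  · exact (Submodule.finrank_le _).trans (by omega)
  · exact (Submodule.finrank_le _).trans (by omega)
  · exact (Submodule.finrank_le _).trans (by omega)
  · exact (Submodule.finrank_le _).trans (by omega)
  · exact (Submodule.finrank_le _).trans (by omega)
  · exact (Submodule.finrank_le _).trans (by omega)
  · exact (Submodule.finrank_le _).trans (by omega)
  · exact (Submodule.finrank_le _).trans (by omega)
  · exact (Submodule.finrank_le _).trans (by omega)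
  · exact Nat.zero_le _

/-- the unit matrix group element of a linear equivalence -/
noncomputable def toGL {n : ℕ} (e : (Fin n → K) ≃ₗ[K] (Fin n → K)) :
    Matrix.GeneralLinearGroup (Fin n) K where
  val := LinearMap.toMatrix' e.toLinearMap
  inv := LinearMap.toMatrix' e.symm.toLinearMap
  val_inv := by
    rw [← LinearMap.toMatrix'_comp]
    simp
  inv_val := by
    rw [← LinearMap.toMatrix'_comp]
    simp

theorem intertwine {n m : ℕ} {A B : Matrix (Fin m) (Fin n) K} (e : (Fin n → K) ≃ₗ[K] (Fin n → K))
    (f : (Fin m → K) ≃ₗ[K] (Fin m → K))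
    (h : ∀ v, f (A.mulVecLin v) = B.mulVecLin (e v)) :
    B = (toGL f).1 * A * (toGL e)⁻¹.1 := by
  have h1 : (toGL f).1 * A = B * (toGL e).1 := by
    show LinearMap.toMatrix' f.toLinearMap * A = B * LinearMap.toMatrix' e.toLinearMap
    have h2 : f.toLinearMap ∘ₗ A.mulVecLin = B.mulVecLin ∘ₗ e.toLinearMap := by
      apply LinearMap.ext
      intro v
      exact h v
    have h3 := congrArg LinearMap.toMatrix' h2
    rw [LinearMap.toMatrix'_comp, LinearMap.toMatrix'_comp, ← Matrix.toLin'_apply',
      ← Matrix.toLin'_apply', LinearMap.toMatrix'_toLin', LinearMap.toMatrix'_toLin'] at h3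
    exact h3
  rw [h1, Matrix.mul_assoc]
  have : (toGL e).1 * (toGL e)⁻¹.1 = 1 := (toGL e).mul_inv
  rw [this, Matrix.mul_one]

theorem mem_orbit_of_inv {M N : Rep K Vx d} {h : M.m4 * (M.m3 * (M.m2 * M.m1)) = 0}
    {h' : N.m4 * (N.m3 * (N.m2 * N.m1)) = 0} (hinv : SameInv (toD M h) (toD N h'))
    (hk : SameKind (toD M h) (toD N h')) : N ∈ orbit M := by
  obtain ⟨e1, e2, e3, e4, e5, e6, c1, c2, c3, c4, c5, c6⟩ := exists_iso hinv hk
  refine ⟨fun a => match a with
    | .v1 => toGL e1 | .v2 => toGL e2 | .v3 => toGL e3 | .v4 => toGL e4 | .v5 => toGL e5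
    | .v6 => toGL e6, ?_⟩
  funext a b e
  change Arr _ _ at e
  cases e with
  | a1 => exact intertwine e1 e2 c1
  | a2 => exact intertwine e2 e3 c2
  | a3 => exact intertwine e3 e4 c3
  | a4 => exact intertwine e4 e5 c4
  | b => exact intertwine e6 e3 c5
  | dl => exact intertwine e1 e5 c6

theorem exists_finite_good (K : Type u) [Field K] (d : Vx → ℕ) :
    ∃ R : Set (Rep K Vx d), R.Finite ∧ R ⊆ Good K d ∧ Good K d ⊆ ⋃ r ∈ R, orbit r := by
  classical
  let N := finrank K (Fin (d .v1) → K) + finrank K (Fin (d .v2) → K) +
    finrank K (Fin (d .v3) → K) + finrank K (Fin (d .v4) → K) + finrank K (Fin (d .v5) → K) +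
    finrank K (Fin (d .v6) → K)
  let f : Good K d → (Fin 14 → Fin 11 → Fin 11 → Fin (N + 1)) × (Fin 4 → Prop) := fun M =>
    (fun t i j => ⟨(toD M.1 M.2.choose).inv t i j, Nat.lt_succ_of_le (inv_le _ _ _ _)⟩,
      kinds (toD M.1 M.2.choose))
  have hf : ∀ M N : Good K d, f M = f N → N.1 ∈ orbit M.1 := by
    intro M N hMN
    have h1 := congrArg Prod.fst hMN
    have h2 := congrArg Prod.snd hMN
    obtain ⟨i, hi⟩ := M.2.choose_spec
    have hi' : kinds (toD N.1 N.2.choose) i := by
      have h3 : kinds (toD M.1 M.2.choose) i = kinds (toD N.1 N.2.choose) i := congrFun h2 i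
      rw [← h3]
      exact hi
    refine mem_orbit_of_inv (h := M.2.choose) (h' := N.2.choose) ?_ (sameKind hi hi')
    intro t ht i hi j hj
    have h3 := congrFun (congrFun (congrFun h1 ⟨t, ht⟩) ⟨i, hi⟩) ⟨j, hj⟩
    exact congrArg Fin.val h3
  choose g hg using fun b : Set.range f => b.2
  refine ⟨Set.range fun b : Set.range f => (g b).1, ?_, ?_, ?_⟩
  · exact Set.finite_range _
  · rintro _ ⟨b, rfl⟩
    exact (g b).2
  · intro M hM
    rw [Set.mem_iUnion₂]
    refine ⟨(g ⟨f ⟨M, hM⟩, ⟨M, hM⟩, rfl⟩).1, ⟨_, rfl⟩, ?_⟩
    exact hf _ ⟨M, hM⟩ (hg ⟨f ⟨M, hM⟩, ⟨M, hM⟩, rfl⟩)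

end Weyman
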