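import Pool.Agent.Work.MP_74f58b_al.Defs

/-!
Zariski closures, orbit closures and irreducible components.
-/

namespace Weyman

open Polynomial

universe u

variable {K : Type u} [Field K] {V : Type} [Quiver.{0} V] {d : V → ℕ}

theorem subset_zclosure (X : Set (Rep K V d)) : X ⊆ zclosure X := fun _ hM _ hf => hf _ hM

theorem zclosure_mono {X Y : Set (Rep K V d)} (h : X ⊆ Y) : zclosure X ⊆ zclosure Y :=
  fun _ hM f hf => hM f fun N hN => hf N (h hN)

theorem zclosure_zclosure (X : Set (Rep K V d)) : zclosure (zclosure X) = zclosure X := by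
  apply Set.Subset.antisymm _ (subset_zclosure _)
  intro M hM f hf
  exact hM f fun N hN => hN f hf

theorem zclosed_zclosure (X : Set (Rep K V d)) : ZClosed (zclosure X) := zclosure_zclosure X

theorem zclosure_subset {X Y : Set (Rep K V d)} (hY : ZClosed Y) (h : X ⊆ Y) : zclosure X ⊆ Y := by
  have := zclosure_mono h
  rwa [hY] at this

theorem zclosure_union (X Y : Set (Rep K V d)) : zclosure (X ∪ Y) ⊆ zclosure X ∪ zclosure Y := by
  intro M hM
  by_contra hcon
  rw [Set.mem_union, not_or] at hcon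
  obtain ⟨h1, h2⟩ := hcon
  have h1' : ∃ f : MvPolynomial (Coord V d) K, (∀ N ∈ X, MvPolynomial.eval N.coords f = 0) ∧
      MvPolynomial.eval M.coords f ≠ 0 := by
    by_contra h
    push Not at h
    exact h1 h
  have h2' : ∃ f : MvPolynomial (Coord V d) K, (∀ N ∈ Y, MvPolynomial.eval N.coords f = 0) ∧
      MvPolynomial.eval M.coords f ≠ 0 := by
    by_contra h
    push Not at h
    exact h2 h
  obtain ⟨f, hf1, hf2⟩ := h1'
  obtain ⟨g, hg1, hg2⟩ := h2'
  have h3 := hM (f * g) (by
    rintro N (hN | hN)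
    · rw [map_mul, hf1 N hN, zero_mul]
    · rw [map_mul, hg1 N hN, mul_zero])
  rw [map_mul] at h3
  rcases mul_eq_zero.1 h3 with h | h
  · exact hf2 h
  · exact hg2 h

theorem irred_subset_of_finite {ι : Type*} {C : Set (Rep K V d)} (hC : ZIrreducible C)
    {R : Set ι} (hR : R.Finite) (X : ι → Set (Rep K V d)) (h : C ⊆ zclosure (⋃ r ∈ R, X r)) :
    ∃ r ∈ R, C ⊆ zclosure (X r) := by
  induction R, hR using Set.Finite.induction_on with
  | empty =>
    exfalso
    obtain ⟨M, hM⟩ := hC.1
    have h1 := h hM 1 (by intro N hN; simp at hN)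
    simp at h1
  | @insert a s _ _ ih =>
    rw [Set.biUnion_insert] at h
    have h1 := h.trans (zclosure_union _ _)
    rcases hC.2 _ _ (zclosed_zclosure _) (zclosed_zclosure _) h1 with h2 | h2
    · exact ⟨a, Set.mem_insert _ _, h2⟩
    · obtain ⟨r, hr, hr'⟩ := ih h2
      exact ⟨r, Set.mem_insert_of_mem _ hr, hr'⟩

theorem mem_orbit_self (M : Rep K V d) : M ∈ orbit M := by
  refine ⟨fun _ => 1, ?_⟩
  funext a b e
  simp

/-- clearing denominators -/
theorem exists_clear {σ : Type*} (f : MvPolynomial σ K) (n : σ → K[X]) (D : K[X]) :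
    ∃ (N : ℕ) (F : K[X]), ∀ t : K, D.eval t ≠ 0 →
      F.eval t = D.eval t ^ N * MvPolynomial.eval (fun c => (n c).eval t / D.eval t) f := by
  induction f using MvPolynomial.induction_on with
  | C a => exact ⟨0, C a, fun t _ => by simp⟩
  | add p q hp hq =>
    obtain ⟨N1, F1, h1⟩ := hp
    obtain ⟨N2, F2, h2⟩ := hq
    refine ⟨N1 + N2, F1 * D ^ N2 + F2 * D ^ N1, fun t ht => ?_⟩
    rw [eval_add, eval_mul, eval_mul, eval_pow, eval_pow, h1 t ht, h2 t ht, map_add]
    ring
  | mul_X p c hp =>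
    obtain ⟨N1, F1, h1⟩ := hp
    refine ⟨N1 + 1, F1 * n c, fun t ht => ?_⟩
    rw [eval_mul, h1 t ht, map_mul, MvPolynomial.eval_X]
    field_simp
    ring

/-- joining two points of an orbit by a rational curve -/
theorem exists_join [Infinite K] [Finite V] (M : Rep K V d)
    (g1 g2 : ∀ a : V, Matrix.GeneralLinearGroup (Fin (d a)) K)
    (f1 f2 : MvPolynomial (Coord V d) K)
    (h1 : MvPolynomial.eval
      (Rep.coords (fun a b e => (g1 b).1 * M a b e * (g1 a)⁻¹.1 : Rep K V d)) f1 ≠ 0)
    (h2 : MvPolynomial.eval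
      (Rep.coords (fun a b e => (g2 b).1 * M a b e * (g2 a)⁻¹.1 : Rep K V d)) f2 ≠ 0) :
    ∃ N ∈ orbit M, MvPolynomial.eval N.coords f1 ≠ 0 ∧ MvPolynomial.eval N.coords f2 ≠ 0 := by
  classical
  have := Fintype.ofFinite V
  let G : ∀ a : V, Matrix (Fin (d a)) (Fin (d a)) K[X] := fun a =>
    (1 - X : K[X]) • (g1 a).1.map C + (X : K[X]) • (g2 a).1.map C
  let D : K[X] := ∏ a : V, (G a).det
  let n : Coord V d → K[X] := fun c =>
    (G c.tgt * (M c.src c.tgt c.arr).map C * (G c.src).adjugate) c.row c.col *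
      ∏ a ∈ Finset.univ.erase c.src, (G a).det
  -- evaluation of the matrices
  let Gt : K → ∀ a : V, Matrix (Fin (d a)) (Fin (d a)) K := fun t a =>
    (1 - t) • (g1 a).1 + t • (g2 a).1
  have hG : ∀ (t : K) (a : V), (G a).map (eval t) = Gt t a := by
    intro t a
    ext i j
    simp [G, Gt]
    ring
  have hGdet : ∀ (t : K) (a : V), (G a).det.eval t = (Gt t a).det := by
    intro t a
    have := RingHom.map_det (evalRingHom t) (G a)
    rw [← hG]
    exact this
  have hGadj : ∀ (t : K) (a : V), (G a).adjugate.map (eval t) = (Gt t a).adjugate := by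
    intro t a
    have := RingHom.map_adjugate (evalRingHom t) (G a)
    rw [← hG]
    exact this
  have hD : ∀ t : K, D.eval t = ∏ a : V, (Gt t a).det := by
    intro t
    simp only [D, eval_prod, hGdet]
  have key : ∀ t : K, D.eval t ≠ 0 → ∃ g : ∀ a : V, Matrix.GeneralLinearGroup (Fin (d a)) K,
      (∀ a, (g a).1 = Gt t a) ∧
      (fun c => (n c).eval t / D.eval t) =
        Rep.coords (fun a b e => (g b).1 * M a b e * (g a)⁻¹.1 : Rep K V d) := by
    intro t ht
    have hdet : ∀ a, (Gt t a).det ≠ 0 := by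
      intro a
      rw [hD, Finset.prod_ne_zero_iff] at ht
      exact ht a (Finset.mem_univ a)
    refine ⟨fun a => Matrix.GeneralLinearGroup.mkOfDetNeZero (Gt t a) (hdet a), fun a => rfl, ?_⟩
    funext c
    have e1 : (n c).eval t = ((Gt t c.tgt * M c.src c.tgt c.arr * (Gt t c.src).adjugate)
        c.row c.col) * ∏ a ∈ Finset.univ.erase c.src, (Gt t a).det := by
      simp only [n, eval_mul, eval_prod, hGdet]
      congr 1
      have e2 : (G c.tgt * (M c.src c.tgt c.arr).map C * (G c.src).adjugate).map (eval t) =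
          Gt t c.tgt * M c.src c.tgt c.arr * (Gt t c.src).adjugate := by
        rw [← hG, ← hGadj]
        have e3 : ((M c.src c.tgt c.arr).map (C : K → K[X])).map (eval t) =
            M c.src c.tgt c.arr := by
          ext i j; simp
        have := Matrix.map_mul (L := G c.tgt * (M c.src c.tgt c.arr).map C)
          (M := (G c.src).adjugate) (f := evalRingHom t)
        simp only [coe_evalRingHom] at this
        rw [this]
        have := Matrix.map_mul (L := G c.tgt) (M := (M c.src c.tgt c.arr).map C)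
          (f := evalRingHom t)
        simp only [coe_evalRingHom] at this
        rw [this, e3]
      exact congrFun (congrFun e2 c.row) c.col
    have e4 : D.eval t = (Gt t c.src).det * ∏ a ∈ Finset.univ.erase c.src, (Gt t a).det := by
      rw [hD]
      exact (Finset.mul_prod_erase Finset.univ (fun a => (Gt t a).det)
        (Finset.mem_univ c.src)).symm
    have e5 : (∏ a ∈ Finset.univ.erase c.src, (Gt t a).det) ≠ 0 := by
      rw [Finset.prod_ne_zero_iff]
      exact fun a _ => hdet a
    rw [e1, e4, mul_comm ((Gt t c.src).det), mul_comm _ (∏ a ∈ Finset.univ.erase c.src, _),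
      mul_div_mul_left _ _ e5]
    show _ = (Gt t c.tgt * M c.src c.tgt c.arr *
      ((Matrix.GeneralLinearGroup.mkOfDetNeZero (Gt t c.src) (hdet c.src))⁻¹).1) c.row c.col
    have e6 : ((Matrix.GeneralLinearGroup.mkOfDetNeZero (Gt t c.src) (hdet c.src))⁻¹).1 =
        ((Gt t c.src).det)⁻¹ • (Gt t c.src).adjugate := by
      rw [Matrix.coe_units_inv]
      show (Gt t c.src)⁻¹ = _
      rw [Matrix.inv_def, Ring.inverse_eq_inv']
    rw [e6, Matrix.mul_smul, Matrix.smul_apply, smul_eq_mul]
    field_simp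
  obtain ⟨N1, F1, hF1⟩ := exists_clear f1 n D
  obtain ⟨N2, F2, hF2⟩ := exists_clear f2 n D
  have hG0 : ∀ a, Gt 0 a = (g1 a).1 := by intro a; simp [Gt]
  have hG1 : ∀ a, Gt 1 a = (g2 a).1 := by intro a; simp [Gt]
  have hdetg : ∀ (g : ∀ a : V, Matrix.GeneralLinearGroup (Fin (d a)) K) (a : V),
      (g a).1.det ≠ 0 := by
    intro g a
    exact ((Matrix.isUnit_iff_isUnit_det _).1 (g a).isUnit).ne_zero
  have hD0 : D.eval 0 ≠ 0 := by
    rw [hD, Finset.prod_ne_zero_iff]
    intro a _
    rw [hG0]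
    exact hdetg g1 a
  have hD1 : D.eval 1 ≠ 0 := by
    rw [hD, Finset.prod_ne_zero_iff]
    intro a _
    rw [hG1]
    exact hdetg g2 a
  have hF10 : F1 ≠ 0 := by
    rintro rfl
    have h3 := hF1 0 hD0
    rw [eval_zero] at h3
    obtain ⟨g, hg1, hg2⟩ := key 0 hD0
    have hgg : g = g1 := by
      funext a
      apply Units.ext
      rw [hg1, hG0]
    rw [hg2, hgg] at h3
    rcases mul_eq_zero.1 h3.symm with h | h
    · exact pow_ne_zero _ hD0 h
    · exact h1 h
  have hF20 : F2 ≠ 0 := by
    rintro rfl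
    have h3 := hF2 1 hD1
    rw [eval_zero] at h3
    obtain ⟨g, hg1, hg2⟩ := key 1 hD1
    have hgg : g = g2 := by
      funext a
      apply Units.ext
      rw [hg1, hG1]
    rw [hg2, hgg] at h3
    rcases mul_eq_zero.1 h3.symm with h | h
    · exact pow_ne_zero _ hD1 h
    · exact h2 h
  have hD00 : D ≠ 0 := by
    rintro h
    rw [h] at hD0
    simp at hD0
  have hP : F1 * F2 * D ≠ 0 := mul_ne_zero (mul_ne_zero hF10 hF20) hD00
  have hex : ∃ t : K, (F1 * F2 * D).eval t ≠ 0 := by
    by_contra h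
    push Not at h
    exact hP (Polynomial.funext (fun t => by rw [h t, eval_zero]))
  obtain ⟨t, ht⟩ := hex
  rw [eval_mul, eval_mul] at ht
  have ht1 : F1.eval t ≠ 0 := left_ne_zero_of_mul (left_ne_zero_of_mul ht)
  have ht2 : F2.eval t ≠ 0 := right_ne_zero_of_mul (left_ne_zero_of_mul ht)
  have ht3 : D.eval t ≠ 0 := right_ne_zero_of_mul ht
  obtain ⟨g, -, hg⟩ := key t ht3
  rw [hF1 t ht3, hg] at ht1
  rw [hF2 t ht3, hg] at ht2
  exact ⟨_, ⟨g, rfl⟩, right_ne_zero_of_mul ht1, right_ne_zero_of_mul ht2⟩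

theorem irred_orbit [Infinite K] [Finite V] (M : Rep K V d) : ZIrreducible (zclosure (orbit M)) := by
  refine ⟨⟨M, subset_zclosure _ (mem_orbit_self M)⟩, ?_⟩
  intro Y Z hY hZ hYZ
  by_contra hcon
  rw [not_or] at hcon
  obtain ⟨h1, h2⟩ := hcon
  have aux : ∀ Y : Set (Rep K V d), ZClosed Y → ¬ zclosure (orbit M) ⊆ Y →
      ∃ (g : ∀ a : V, Matrix.GeneralLinearGroup (Fin (d a)) K) (f : MvPolynomial (Coord V d) K),
        (∀ N ∈ Y, MvPolynomial.eval N.coords f = 0) ∧ MvPolynomial.eval
      (Rep.coords (fun a b e => (g b).1 * M a b e * (g a)⁻¹.1 : Rep K V d)) f ≠ 0 := by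
    intro Y hY h
    have h3 : ¬ orbit M ⊆ Y := fun h4 => h (zclosure_subset hY h4)
    rw [Set.not_subset] at h3
    obtain ⟨N, ⟨g, rfl⟩, hN⟩ := h3
    rw [← hY] at hN
    by_contra h5
    push Not at h5
    exact hN (fun f hf => h5 g f hf)
  obtain ⟨g1, f1, a1, b1⟩ := aux Y hY h1
  obtain ⟨g2, f2, a2, b2⟩ := aux Z hZ h2
  obtain ⟨N, hN, c1, c2⟩ := exists_join M g1 g2 f1 f2 b1 b2
  rcases hYZ (subset_zclosure _ hN) with h | h
  · exact c1 (a1 N h)
  · exact c2 (a2 N h)

/-- A closed set which is the closure of a finite union of orbits has dense orbits in all its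
components. -/
theorem dense_of_finite [Infinite K] [Finite V] {X : Set (Rep K V d)} (hX : ZClosed X)
    {R : Set (Rep K V d)} (hR : R.Finite) (hRX : ∀ r ∈ R, orbit r ⊆ X)
    (h : X ⊆ zclosure (⋃ r ∈ R, orbit r)) (C : Set (Rep K V d)) (hC : IsComponent C X) :
    ∃ M : Rep K V d, orbit M ⊆ C ∧ zclosure (orbit M) = C := by
  obtain ⟨h1, h2, h3, h4⟩ := hC
  obtain ⟨r, hr, hr'⟩ := irred_subset_of_finite h3 hR orbit (h1.trans h)
  have h5 := h4 _ (zclosure_subset hX (hRX r hr)) (zclosed_zclosure _) (irred_orbit r) hr'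
  exact ⟨r, by rw [← h5]; exact subset_zclosure _, h5⟩

/-- limits along lines -/
theorem mem_zclosure_of_line [Infinite K] {X : Set (Rep K V d)} (M N : Rep K V d)
    (h : ∀ t : K, t ≠ 0 → (fun a b e => M a b e + t • N a b e : Rep K V d) ∈ zclosure X) :
    M ∈ zclosure X := by
  intro f hf
  let q : K[X] := MvPolynomial.aeval
    (fun c => C (M.coords c) + Polynomial.X * C (N.coords c)) f
  have hq : ∀ t : K, q.eval t = MvPolynomial.eval
      (Rep.coords (fun a b e => M a b e + t • N a b e : Rep K V d)) f := by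
    intro t
    have h1 := MvPolynomial.eval₂_comp_left (evalRingHom t) (C : K →+* K[X])
      (fun c => C (M.coords c) + Polynomial.X * C (N.coords c)) f
    have h2 : (evalRingHom t).comp C = RingHom.id K := by ext x; simp
    rw [h2, MvPolynomial.eval₂_id] at h1
    have h3 : q.eval t = (evalRingHom t) (MvPolynomial.eval₂ (C : K →+* K[X])
      (fun c => C (M.coords c) + Polynomial.X * C (N.coords c)) f) := rfl
    rw [h3, h1]
    congr 2
    funext c
    simp only [Function.comp_apply, coe_evalRingHom, eval_add, eval_mul, eval_C, eval_X,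
      Rep.coords, Matrix.add_apply, Matrix.smul_apply, smul_eq_mul]
  have h0 : q * Polynomial.X = 0 := by
    apply Polynomial.funext
    intro t
    rw [eval_mul, eval_X, eval_zero]
    by_cases ht : t = 0
    · rw [ht, mul_zero]
    · rw [hq, h t ht f hf, zero_mul]
  have h1 : q = 0 := by
    rcases mul_eq_zero.1 h0 with h | h
    · exact h
    · exact absurd h Polynomial.X_ne_zero
  have h2 := hq 0
  rw [h1, eval_zero] at h2
  have h3 : (fun a b e => M a b e + (0 : K) • N a b e : Rep K V d) = M := by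
    funext a b e
    simp
  rw [h3] at h2
  exact h2.symm

/-- entries of path matrices are polynomial -/
theorem exists_poly_eval {a b : V} (p : Quiver.Path a b) (i : Fin (d b)) (j : Fin (d a)) :
    ∃ P : MvPolynomial (Coord V d) K, ∀ M : Rep K V d,
      MvPolynomial.eval M.coords P = M.pathMat p i j := by
  induction p with
  | nil =>
    exact ⟨MvPolynomial.C ((1 : Matrix (Fin (d a)) (Fin (d a)) K) i j), fun M => by
      simp [Rep.pathMat]⟩
  | @cons b c p e ih =>
    choose P hP using fun k => ih k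
    refine ⟨∑ k, MvPolynomial.X ⟨b, c, e, i, k⟩ * P k, fun M => ?_⟩
    simp only [map_sum, map_mul, MvPolynomial.eval_X, hP]
    rfl

theorem zclosed_modVar (J : PathIdeal K V) : ZClosed (modVar J d) := by
  apply Set.Subset.antisymm _ (subset_zclosure _)
  intro M hM a b x hx
  ext i j
  choose P hP using fun p : Quiver.Path a b => exists_poly_eval (K := K) (d := d) p i j
  have key : ∀ N : Rep K V d, MvPolynomial.eval N.coords
      (∑ p ∈ x.support, MvPolynomial.C (x p) * P p) =
      (x.sum fun p c => c • N.pathMat p) i j := by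
    intro N
    rw [map_sum, Finsupp.sum, Matrix.sum_apply]
    refine Finset.sum_congr rfl fun p _ => ?_
    rw [map_mul, MvPolynomial.eval_C, hP, Matrix.smul_apply, smul_eq_mul]
  rw [← key M]
  rw [hM _ (fun N hN => by rw [key N, hN a b x hx]; rfl)]
  rfl

theorem orbit_eval {M N : Rep K V d} (g : ∀ a : V, Matrix.GeneralLinearGroup (Fin (d a)) K)
    (hN : N = fun a b e => (g b).1 * M a b e * (g a)⁻¹.1) {a b : V} (p : Quiver.Path a b) :
    N.pathMat p = (g b).1 * M.pathMat p * (g a)⁻¹.1 := by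
  induction p with
  | nil =>
    show (1 : Matrix _ _ K) = (g a).1 * (1 : Matrix _ _ K) * (g a)⁻¹.1
    rw [mul_one]
    exact ((g a).mul_inv).symm
  | @cons b c p e ih =>
    show N b c e * N.pathMat p = (g c).1 * (M b c e * M.pathMat p) * (g a)⁻¹.1
    rw [ih, hN]
    simp only [Matrix.mul_assoc]
    have h1 : (g b)⁻¹.1 * ((g b).1 * (M.pathMat p * (g a)⁻¹.1)) = M.pathMat p * (g a)⁻¹.1 := by
      rw [← Matrix.mul_assoc]
      have : (g b)⁻¹.1 * (g b).1 = 1 := (g b).inv_mul
      rw [this, Matrix.one_mul]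
    rw [h1]

theorem orbit_subset_modVar {J : PathIdeal K V} {M : Rep K V d} (h : M ∈ modVar J d) :
    orbit M ⊆ modVar J d := by
  rintro N ⟨g, hN⟩ a b x hx
  have h1 := h a b x hx
  have h2 : (x.sum fun p c => c • N.pathMat p) =
      (g b).1 * (x.sum fun p c => c • M.pathMat p) * (g a)⁻¹.1 := by
    simp only [Finsupp.sum, Matrix.mul_sum, Matrix.sum_mul]
    refine Finset.sum_congr rfl fun p _ => ?_
    rw [orbit_eval g hN, Matrix.mul_smul, Matrix.smul_mul]
  rw [h2, h1]
  simp

end Weyman
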