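import Mathlib

/-!
Partial isomorphisms between finite-dimensional vector spaces, encoded as
submodules of the product (graphs), and extension lemmas for them.
-/

namespace Weyman

open Submodule Module

variable {K : Type*} [Field K] {V V' : Type*} [AddCommGroup V] [Module K V]
  [AddCommGroup V'] [Module K V']

/-- A relation which is the graph of an isomorphism between two subspaces. -/
def PI (Γ : Submodule K (V × V')) : Prop := ∀ x ∈ Γ, x.1 = 0 ↔ x.2 = 0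

/-- A relation respects a pair of subspaces. -/
def Resp (Γ : Submodule K (V × V')) (B : Submodule K V) (B' : Submodule K V') : Prop :=
  ∀ x ∈ Γ, x.1 ∈ B ↔ x.2 ∈ B'

/-- The graph of an isomorphism from `A` to `A'`. -/
structure GIso (Γ : Submodule K (V × V')) (A : Submodule K V) (A' : Submodule K V') : Prop where
  pi : PI Γ
  le : Γ ≤ A.prod A'
  sur1 : ∀ v ∈ A, ∃ v', (v, v') ∈ Γ
  sur2 : ∀ v' ∈ A', ∃ v, (v, v') ∈ Γ

/-- The relation `Σ` restricts to a relation between `A` and `A'` which is onto on both sides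
and has kernels of the same dimension on both sides. -/
structure Cov (S : Submodule K (V × V')) (A : Submodule K V) (A' : Submodule K V') : Prop where
  c1 : ∀ v ∈ A, ∃ v' ∈ A', (v, v') ∈ S
  c2 : ∀ v' ∈ A', ∃ v ∈ A, (v, v') ∈ S
  fr : finrank K ↥(A ⊓ S.comap (LinearMap.inl K V V')) =
    finrank K ↥(A' ⊓ S.comap (LinearMap.inr K V V'))

theorem PI.ext1 {Γ : Submodule K (V × V')} (h : PI Γ) {v : V} {v' w' : V'} (h1 : (v, v') ∈ Γ)
    (h2 : (v, w') ∈ Γ) : v' = w' := by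
  have h3 := Γ.sub_mem h1 h2
  have h4 := (h _ h3).1 (by simp)
  simpa [sub_eq_zero] using h4

theorem PI.ext2 {Γ : Submodule K (V × V')} (h : PI Γ) {v w : V} {v' : V'} (h1 : (v, v') ∈ Γ)
    (h2 : (w, v') ∈ Γ) : v = w := by
  have h3 := Γ.sub_mem h1 h2
  have h4 := (h _ h3).2 (by simp)
  simpa [sub_eq_zero] using h4

theorem PI.mono {Γ Δ : Submodule K (V × V')} (h : PI Γ) (hle : Δ ≤ Γ) : PI Δ :=
  fun x hx => h x (hle hx)

theorem Resp.mono {Γ Δ : Submodule K (V × V')} {B : Submodule K V} {B' : Submodule K V'}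
    (h : Resp Γ B B') (hle : Δ ≤ Γ) : Resp Δ B B' :=
  fun x hx => h x (hle hx)

theorem Resp.inf {Γ : Submodule K (V × V')} {B C : Submodule K V} {B' C' : Submodule K V'}
    (h : Resp Γ B B') (h' : Resp Γ C C') : Resp Γ (B ⊓ C) (B' ⊓ C') := by
  intro x hx
  rw [Submodule.mem_inf, Submodule.mem_inf, h x hx, h' x hx]

theorem Resp.of_le {Γ : Submodule K (V × V')} {B : Submodule K V} {B' : Submodule K V'}
    (h : Γ ≤ B.prod B') : Resp Γ B B' :=
  fun _ hx => ⟨fun _ => (h hx).2, fun _ => (h hx).1⟩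

/-- A partial isomorphism respects what a sub-relation with large domain respects. -/
theorem Resp.of_sub {Γ Δ : Submodule K (V × V')} {A B : Submodule K V} {A' B' : Submodule K V'}
    (hΓ : PI Γ) (hΔ : GIso Δ A A') (hle : Δ ≤ Γ) (hB : B ≤ A) (hB' : B' ≤ A')
    (h : Resp Δ B B') : Resp Γ B B' := by
  intro x hx
  constructor
  · intro h1
    obtain ⟨w, hw⟩ := hΔ.sur1 _ (hB h1)
    have : x.2 = w := hΓ.ext1 (v := x.1) hx (hle hw)
    rw [this]
    exact (h _ hw).1 h1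
  · intro h1
    obtain ⟨w, hw⟩ := hΔ.sur2 _ (hB' h1)
    have : x.1 = w := hΓ.ext2 (v' := x.2) hx (hle hw)
    rw [this]
    exact (h _ hw).2 h1

theorem GIso.resp {Γ Δ : Submodule K (V × V')} {A : Submodule K V} {A' : Submodule K V'}
    (hΔ : GIso Δ A A') (hΓ : PI Γ) (hle : Δ ≤ Γ) : Resp Γ A A' :=
  Resp.of_sub hΓ hΔ hle le_rfl le_rfl (Resp.of_le hΔ.le)

/-- gluing -/
theorem PI.glue {Γ Δ : Submodule K (V × V')}
    (h1 : ∀ x ∈ Γ, ∀ y ∈ Δ, x.1 = y.1 → x.2 = y.2)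
    (h2 : ∀ x ∈ Γ, ∀ y ∈ Δ, x.2 = y.2 → x.1 = y.1) : PI (Γ ⊔ Δ) := by
  intro x hx
  obtain ⟨y, hy, z, hz, rfl⟩ := Submodule.mem_sup.1 hx
  constructor
  · intro h
    have := h1 y hy (-z) (Δ.neg_mem hz) (by simpa [eq_neg_iff_add_eq_zero] using h)
    simpa [eq_neg_iff_add_eq_zero] using this
  · intro h
    have := h2 y hy (-z) (Δ.neg_mem hz) (by simpa [eq_neg_iff_add_eq_zero] using h)
    simpa [eq_neg_iff_add_eq_zero] using this

theorem finrank_fst {Γ : Submodule K (V × V')} (h : PI Γ) :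
    finrank K ↥(Γ.map (LinearMap.fst K V V')) = finrank K Γ := by
  have hinj : Function.Injective ((LinearMap.fst K V V').domRestrict Γ) := by
    rw [injective_iff_map_eq_zero]
    intro x hx
    have h1 : (x : V × V').1 = 0 := by simpa using hx
    have h2 := (h x x.2).1 h1
    ext
    · exact h1
    · exact h2
  have h1 := LinearMap.finrank_range_of_inj hinj
  rw [LinearMap.range_domRestrict] at h1
  exact h1

theorem finrank_snd {Γ : Submodule K (V × V')} (h : PI Γ) :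
    finrank K ↥(Γ.map (LinearMap.snd K V V')) = finrank K Γ := by
  have hinj : Function.Injective ((LinearMap.snd K V V').domRestrict Γ) := by
    rw [injective_iff_map_eq_zero]
    intro x hx
    have h1 : (x : V × V').2 = 0 := by simpa using hx
    have h2 := (h x x.2).2 h1
    ext
    · exact h2
    · exact h1
  have h1 := LinearMap.finrank_range_of_inj hinj
  rw [LinearMap.range_domRestrict] at h1
  exact h1

variable [FiniteDimensional K V] [FiniteDimensional K V']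

/-- Extension of a partial isomorphism between two subspaces of the same dimension. -/
theorem exists_ext0 {Γ : Submodule K (V × V')} {A : Submodule K V} {A' : Submodule K V'}
    (h : PI Γ) (hle : Γ ≤ A.prod A') (hfr : finrank K A = finrank K A') :
    ∃ Δ : Submodule K (V × V'), Γ ≤ Δ ∧ GIso Δ A A' := by
  set D := Γ.map (LinearMap.fst K V V') with hD
  set D' := Γ.map (LinearMap.snd K V V') with hD'
  have hDA : D ≤ A := by
    rintro _ ⟨x, hx, rfl⟩
    exact (hle hx).1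
  have hDA' : D' ≤ A' := by
    rintro _ ⟨x, hx, rfl⟩
    exact (hle hx).2
  obtain ⟨E, hE1, hE2⟩ := IsModularLattice.exists_disjoint_and_sup_eq hDA
  obtain ⟨E', hE1', hE2'⟩ := IsModularLattice.exists_disjoint_and_sup_eq hDA'
  have e1 : finrank K D + finrank K E = finrank K A := by
    have := Submodule.finrank_sup_add_finrank_inf_eq D E
    rw [hE1.eq_bot, finrank_bot, hE2] at this
    omega
  have e2 : finrank K D' + finrank K E' = finrank K A' := by
    have := Submodule.finrank_sup_add_finrank_inf_eq D' E'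
    rw [hE1'.eq_bot, finrank_bot, hE2'] at this
    omega
  have e3 : finrank K D = finrank K Γ := finrank_fst h
  have e4 : finrank K D' = finrank K Γ := finrank_snd h
  have e5 : finrank K E = finrank K E' := by omega
  let e : E ≃ₗ[K] E' := LinearEquiv.ofFinrankEq _ _ e5
  set Θ : Submodule K (V × V') :=
    LinearMap.range (E.subtype.prod (E'.subtype ∘ₗ e.toLinearMap)) with hΘ
  have hΘmem : ∀ x ∈ Θ, ∃ u : E, x.1 = u ∧ x.2 = e u := by
    rintro _ ⟨u, rfl⟩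
    exact ⟨u, rfl, rfl⟩
  have hEA : E ≤ A := hE2 ▸ le_sup_right
  have hEA' : E' ≤ A' := hE2' ▸ le_sup_right
  have hpi : PI (Γ ⊔ Θ) := by
    apply PI.glue
    · intro x hx y hy hxy
      obtain ⟨u, hu1, hu2⟩ := hΘmem y hy
      have h1 : x.1 ∈ D ⊓ E := ⟨⟨x, hx, rfl⟩, by rw [hxy, hu1]; exact u.2⟩
      rw [hE1.eq_bot, Submodule.mem_bot] at h1
      have h2 : u = 0 := by
        ext
        rw [← hu1, ← hxy, h1]; rfl
      rw [(h x hx).1 h1, hu2, h2]; simp
    · intro x hx y hy hxy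
      obtain ⟨u, hu1, hu2⟩ := hΘmem y hy
      have h1 : x.2 ∈ D' ⊓ E' := ⟨⟨x, hx, rfl⟩, by rw [hxy, hu2]; exact (e u).2⟩
      rw [hE1'.eq_bot, Submodule.mem_bot] at h1
      have h2 : e u = 0 := by
        ext
        rw [← hu2, ← hxy, h1]; rfl
      have h3 : u = 0 := by simpa using h2
      rw [(h x hx).2 h1, hu1, h3]; simp
  refine ⟨Γ ⊔ Θ, le_sup_left, hpi, ?_, ?_, ?_⟩
  · refine sup_le hle ?_
    intro x hx
    obtain ⟨u, hu1, hu2⟩ := hΘmem x hx
    exact ⟨by rw [hu1]; exact hEA u.2, by rw [hu2]; exact hEA' (e u).2⟩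
  · intro v hv
    rw [← hE2] at hv
    obtain ⟨y, hy, z, hz, rfl⟩ := Submodule.mem_sup.1 hv
    obtain ⟨x, hx, rfl⟩ := hy
    have h1 : (z, ((e ⟨z, hz⟩ : E') : V')) ∈ Θ := ⟨⟨z, hz⟩, rfl⟩
    exact ⟨x.2 + e ⟨z, hz⟩, Submodule.add_mem_sup hx h1⟩
  · intro v hv
    rw [← hE2'] at hv
    obtain ⟨y, hy, z, hz, rfl⟩ := Submodule.mem_sup.1 hv
    obtain ⟨x, hx, rfl⟩ := hy
    have h1 : (((e.symm ⟨z, hz⟩ : E) : V), z) ∈ Θ := ⟨e.symm ⟨z, hz⟩, by simp⟩
    exact ⟨x.1 + e.symm ⟨z, hz⟩, Submodule.add_mem_sup hx h1⟩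

/-- Main extension lemma. -/
theorem exists_ext {Γ S : Submodule K (V × V')} {A : Submodule K V} {A' : Submodule K V'}
    (h : PI Γ) (hS : Γ ≤ S) (hle : Γ ≤ A.prod A') (hc : Cov S A A') :
    ∃ Δ : Submodule K (V × V'), Γ ≤ Δ ∧ Δ ≤ S ∧ GIso Δ A A' := by
  set N := A ⊓ S.comap (LinearMap.inl K V V') with hN
  set N' := A' ⊓ S.comap (LinearMap.inr K V V') with hN'
  have memN : ∀ v, v ∈ N ↔ v ∈ A ∧ (v, (0 : V')) ∈ S := by intro v; rfl
  have memN' : ∀ v, v ∈ N' ↔ v ∈ A' ∧ ((0 : V), v) ∈ S := by intro v; rfl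
  have h0 : PI (Γ ⊓ N.prod N') := h.mono inf_le_left
  obtain ⟨Θ, hΘ1, hΘ⟩ := exists_ext0 h0 inf_le_right hc.fr
  have hΘS : Θ ≤ S := by
    intro x hx
    have h1 := hΘ.le hx
    have h2 := S.add_mem ((memN _).1 h1.1).2 ((memN' _).1 h1.2).2
    simpa using h2
  have hN1 : ∀ x ∈ S, x.1 ∈ N → x.2 ∈ A' → x.2 ∈ N' := by
    intro x hx h1 h2
    refine (memN' _).2 ⟨h2, ?_⟩
    have h3 := S.sub_mem hx ((memN _).1 h1).2
    have h4 : x - (x.1, (0 : V')) = ((0 : V), x.2) := by ext <;> simp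
    rwa [h4] at h3
  have hN2 : ∀ x ∈ S, x.2 ∈ N' → x.1 ∈ A → x.1 ∈ N := by
    intro x hx h1 h2
    refine (memN _).2 ⟨h2, ?_⟩
    have h3 := S.sub_mem hx ((memN' _).1 h1).2
    have h4 : x - ((0 : V), x.2) = (x.1, (0 : V')) := by ext <;> simp
    rwa [h4] at h3
  have hpi1 : PI (Γ ⊔ Θ) := by
    apply PI.glue
    · intro x hx y hy hxy
      have h1 : x.1 ∈ N := by rw [hxy]; exact (hΘ.le hy).1
      have h2 : x.2 ∈ N' := hN1 x (hS hx) h1 (hle hx).2
      have h3 : x ∈ Θ := hΘ1 ⟨hx, h1, h2⟩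
      exact hΘ.pi.ext1 (v := x.1) h3 (by rw [hxy]; exact hy)
    · intro x hx y hy hxy
      have h1 : x.2 ∈ N' := by rw [hxy]; exact (hΘ.le hy).2
      have h2 : x.1 ∈ N := hN2 x (hS hx) h1 (hle hx).1
      have h3 : x ∈ Θ := hΘ1 ⟨hx, h2, h1⟩
      exact hΘ.pi.ext2 (v' := x.2) h3 (by rw [hxy]; exact hy)
  set Z : Submodule K (V × V') := (⊥ : Submodule K V).prod N' with hZ
  have hdisj : Disjoint (Γ ⊔ Θ) Z := by
    rw [Submodule.disjoint_def]
    intro x hx hx'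
    have h1 : x.1 = 0 := by simpa using hx'.1
    have h2 := (hpi1 x hx).1 h1
    ext
    · exact h1
    · exact h2
  obtain ⟨c, hc1, hc2⟩ := hdisj.exists_isCompl
  set T := S ⊓ A.prod A' with hT
  have hZT : Z ≤ T := by
    intro x hx
    have h1 : x.1 = 0 := by simpa using hx.1
    have h2 := (memN' _).1 hx.2
    refine ⟨?_, ?_, h2.1⟩
    · have : x = ((0 : V), x.2) := by ext; exact h1; rfl
      rw [this]; exact h2.2
    · show x.1 ∈ A
      rw [h1]; exact A.zero_mem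
  have hΓT : Γ ⊔ Θ ≤ T := by
    refine sup_le (le_inf hS hle) (le_inf hΘS ?_)
    exact hΘ.le.trans (Submodule.prod_mono inf_le_left inf_le_left)
  have hΓ' : Γ ⊔ Θ ≤ c ⊓ T := le_inf hc1 hΓT
  have inj1 : ∀ x ∈ c ⊓ T, x.1 = 0 → x.2 = 0 := by
    intro x hx h1
    have h2 : x.2 ∈ N' := hN1 x hx.2.1 (by rw [h1]; exact N.zero_mem) hx.2.2.2
    have h3 : x ∈ c ⊓ Z := ⟨hx.1, by rw [hZ]; exact ⟨by simpa using h1, h2⟩⟩
    rw [hc2.inf_eq_bot, Submodule.mem_bot] at h3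
    rw [h3]; rfl
  have hΘ' : Θ ≤ c ⊓ T := le_sup_right.trans hΓ'
  have hpi : PI (c ⊓ T) := by
    intro x hx
    refine ⟨inj1 x hx, fun h1 => ?_⟩
    have h2 : x.1 ∈ N := hN2 x hx.2.1 (by rw [h1]; exact N'.zero_mem) hx.2.2.1
    obtain ⟨n, hn⟩ := hΘ.sur1 _ h2
    have h3 := (c ⊓ T).sub_mem (hΘ' hn) hx
    have h4 := inj1 _ h3 (by simp)
    have h5 : n = 0 := by simpa [h1] using h4
    subst h5
    exact (hΘ.pi _ hn).2 rfl
  have hdec : ∀ x ∈ T, ∃ n ∈ N', x - (0, n) ∈ c ⊓ T := by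
    intro x hx
    have h1 : x ∈ c ⊔ Z := by rw [hc2.sup_eq_top]; trivial
    obtain ⟨y, hy, z, hz, rfl⟩ := Submodule.mem_sup.1 h1
    refine ⟨z.2, hz.2, ?_⟩
    have h2 : (((0 : V), z.2) : V × V') = z := by
      ext
      · have : z.1 = 0 := by simpa using hz.1
        exact this.symm
      · rfl
    rw [h2, add_sub_cancel_right]
    refine ⟨hy, ?_⟩
    have := T.sub_mem hx (hZT hz)
    rwa [add_sub_cancel_right] at this
  refine ⟨c ⊓ T, le_sup_left.trans hΓ', inf_le_right.trans inf_le_left, hpi,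
    inf_le_right.trans inf_le_right, ?_, ?_⟩
  · intro v hv
    obtain ⟨v', hv', hvv⟩ := hc.c1 v hv
    obtain ⟨n, hn, h1⟩ := hdec (v, v') ⟨hvv, hv, hv'⟩
    exact ⟨v' - n, by simpa using h1⟩
  · intro v' hv'
    obtain ⟨v, hv, hvv⟩ := hc.c2 v' hv'
    obtain ⟨n, hn, h1⟩ := hdec (v, v') ⟨hvv, hv, hv'⟩
    obtain ⟨m, hm⟩ := hΘ.sur2 n hn
    have h2 := (c ⊓ T).add_mem h1 (hΘ' hm)
    exact ⟨v + m, by simpa using h2⟩

end Weyman
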