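import Pool.Agent.Work.MP_74f58b_al.Graph

/-!
Chains, pairs, configurations and flags: extension of partial isomorphisms.
-/

namespace Weyman

open Submodule Module

variable {K : Type*} [Field K] {V V' : Type*} [AddCommGroup V] [Module K V]
  [AddCommGroup V'] [Module K V']

theorem PI.bot : PI (⊥ : Submodule K (V × V')) := by
  intro x hx
  rw [Submodule.mem_bot] at hx
  rw [hx]
  simp

theorem Resp.bot (B : Submodule K V) (B' : Submodule K V') :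
    Resp (⊥ : Submodule K (V × V')) B B' := by
  intro x hx
  rw [Submodule.mem_bot] at hx
  rw [hx]
  simp

theorem Resp.of_inf {Γ : Submodule K (V × V')} {B C : Submodule K V} {B' C' : Submodule K V'}
    (h : Γ ≤ C.prod C') (h' : Resp Γ (B ⊓ C) (B' ⊓ C')) : Resp Γ B B' := by
  intro x hx
  have h1 := h' x hx
  rw [Submodule.mem_inf, Submodule.mem_inf] at h1
  have h2 := h hx
  constructor
  · intro h3
    exact (h1.1 ⟨h3, h2.1⟩).1
  · intro h3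
    exact (h1.2 ⟨h3, h2.2⟩).1

variable [FiniteDimensional K V] [FiniteDimensional K V']

theorem exists_step {Γ0 Γ1 S : Submodule K (V × V')} {A1 A2 : Submodule K V}
    {A1' A2' : Submodule K V'} (h0S : Γ0 ≤ S) (h1 : GIso Γ1 A1 A1') (h1S : Γ1 ≤ S)
    (hA : A1 ≤ A2) (hA' : A1' ≤ A2') (hr : Resp Γ0 A1 A1') (h01 : Γ0 ⊓ A1.prod A1' ≤ Γ1)
    (hc : Cov S A2 A2') :
    ∃ Γ2 : Submodule K (V × V'), Γ1 ≤ Γ2 ∧ Γ2 ≤ S ∧ GIso Γ2 A2 A2' ∧
      Γ0 ⊓ A2.prod A2' ≤ Γ2 := by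
  have hpi : PI ((Γ0 ⊓ A2.prod A2') ⊔ Γ1) := by
    apply PI.glue
    · intro x hx y hy hxy
      have h2 : x.1 ∈ A1 := by rw [hxy]; exact (h1.le hy).1
      have h3 : x.2 ∈ A1' := (hr x hx.1).1 h2
      have h4 : x ∈ Γ1 := h01 ⟨hx.1, h2, h3⟩
      exact h1.pi.ext1 (v := x.1) h4 (by rw [hxy]; exact hy)
    · intro x hx y hy hxy
      have h2 : x.2 ∈ A1' := by rw [hxy]; exact (h1.le hy).2
      have h3 : x.1 ∈ A1 := (hr x hx.1).2 h2
      have h4 : x ∈ Γ1 := h01 ⟨hx.1, h3, h2⟩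
      exact h1.pi.ext2 (v' := x.2) h4 (by rw [hxy]; exact hy)
  obtain ⟨Δ, hΔ1, hΔ2, hΔ3⟩ := exists_ext hpi (sup_le (inf_le_left.trans h0S) h1S)
    (sup_le inf_le_right (h1.le.trans (Submodule.prod_mono hA hA'))) hc
  exact ⟨Δ, le_sup_right.trans hΔ1, hΔ2, hΔ3, le_sup_left.trans hΔ1⟩

theorem exists_chain {Γ0 S : Submodule K (V × V')} (h0 : PI Γ0) (h0S : Γ0 ≤ S)
    (A : ℕ → Submodule K V) (A' : ℕ → Submodule K V') (hA : Monotone A) (hA' : Monotone A')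
    (n : ℕ) (hr : ∀ i ≤ n, Resp Γ0 (A i) (A' i)) (hc : ∀ i ≤ n, Cov S (A i) (A' i)) :
    ∃ Γ : Submodule K (V × V'), Γ ≤ S ∧ GIso Γ (A n) (A' n) ∧ Γ0 ⊓ (A n).prod (A' n) ≤ Γ ∧
      ∀ i ≤ n, Resp Γ (A i) (A' i) := by
  induction n with
  | zero =>
    obtain ⟨Δ, hΔ1, hΔ2, hΔ3⟩ := exists_ext (Γ := Γ0 ⊓ (A 0).prod (A' 0)) (h0.mono inf_le_left)
      (inf_le_left.trans h0S) inf_le_right (hc 0 le_rfl)
    refine ⟨Δ, hΔ2, hΔ3, hΔ1, ?_⟩
    intro i hi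
    obtain rfl : i = 0 := by omega
    exact Resp.of_le hΔ3.le
  | succ n ih =>
    obtain ⟨Γ1, h1S, h1, h01, h1r⟩ := ih (fun i hi => hr i (by omega)) (fun i hi => hc i (by omega))
    obtain ⟨Γ2, h12, h2S, h2, h02⟩ := exists_step h0S h1 h1S (hA (Nat.le_succ n))
      (hA' (Nat.le_succ n)) (hr n (by omega)) h01 (hc (n + 1) le_rfl)
    refine ⟨Γ2, h2S, h2, h02, ?_⟩
    intro i hi
    rcases Nat.lt_or_ge n i with h | h
    · obtain rfl : i = n + 1 := by omega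
      exact Resp.of_le h2.le
    · exact Resp.of_sub h2.pi h1 h12 (hA h) (hA' h) (h1r i h)

omit [FiniteDimensional K V] [FiniteDimensional K V'] in
theorem GIso.glue {Γ Δ Θ : Submodule K (V × V')} {A B : Submodule K V} {A' B' : Submodule K V'}
    (hΓ : GIso Γ A A') (hΔ : GIso Δ B B') (hΘ : GIso Θ (A ⊓ B) (A' ⊓ B')) (h1 : Θ ≤ Γ)
    (h2 : Θ ≤ Δ) : GIso (Γ ⊔ Δ) (A ⊔ B) (A' ⊔ B') := by
  refine ⟨?_, ?_, ?_, ?_⟩
  · apply PI.glue
    · intro x hx y hy hxy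
      obtain ⟨w, hw⟩ := hΘ.sur1 x.1 ⟨(hΓ.le hx).1, by rw [hxy]; exact (hΔ.le hy).1⟩
      have e1 : x.2 = w := hΓ.pi.ext1 (v := x.1) hx (h1 hw)
      have e2 : y.2 = w := hΔ.pi.ext1 (v := y.1) hy (by rw [← hxy]; exact h2 hw)
      rw [e1, e2]
    · intro x hx y hy hxy
      obtain ⟨w, hw⟩ := hΘ.sur2 x.2 ⟨(hΓ.le hx).2, by rw [hxy]; exact (hΔ.le hy).2⟩
      have e1 : x.1 = w := hΓ.pi.ext2 (v' := x.2) hx (h1 hw)
      have e2 : y.1 = w := hΔ.pi.ext2 (v' := y.2) hy (by rw [← hxy]; exact h2 hw)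
      rw [e1, e2]
  · exact sup_le (hΓ.le.trans (Submodule.prod_mono le_sup_left le_sup_left))
      (hΔ.le.trans (Submodule.prod_mono le_sup_right le_sup_right))
  · intro v hv
    obtain ⟨y, hy, z, hz, rfl⟩ := Submodule.mem_sup.1 hv
    obtain ⟨y', hy'⟩ := hΓ.sur1 y hy
    obtain ⟨z', hz'⟩ := hΔ.sur1 z hz
    exact ⟨y' + z', Submodule.add_mem_sup hy' hz'⟩
  · intro v hv
    obtain ⟨y, hy, z, hz, rfl⟩ := Submodule.mem_sup.1 hv
    obtain ⟨y', hy'⟩ := hΓ.sur2 y hy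
    obtain ⟨z', hz'⟩ := hΔ.sur2 z hz
    exact ⟨y' + z', Submodule.add_mem_sup hy' hz'⟩

omit [FiniteDimensional K V] [FiniteDimensional K V'] in
theorem cov_top {A : Submodule K V} {A' : Submodule K V'} (h : finrank K A = finrank K A') :
    Cov (⊤ : Submodule K (V × V')) A A' where
  c1 := fun _ _ => ⟨0, A'.zero_mem, trivial⟩
  c2 := fun _ _ => ⟨0, A.zero_mem, trivial⟩
  fr := by
    rw [Submodule.comap_top, Submodule.comap_top, inf_top_eq, inf_top_eq]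
    exact h

omit [FiniteDimensional K V] [FiniteDimensional K V'] in
theorem cov_comap {I I' : Type*} [AddCommGroup I] [Module K I] [AddCommGroup I'] [Module K I']
    {Λ : Submodule K (I × I')} (hΛ : GIso Λ ⊤ ⊤) (π : V →ₗ[K] I) (π' : V' →ₗ[K] I')
    {A : Submodule K V} {A' : Submodule K V'} (hr : Resp Λ (A.map π) (A'.map π'))
    (hf : finrank K ↥(A ⊓ LinearMap.ker π) = finrank K ↥(A' ⊓ LinearMap.ker π')) :
    Cov (Λ.comap (π.prodMap π')) A A' := by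
  refine ⟨?_, ?_, ?_⟩
  · intro v hv
    obtain ⟨i', hi'⟩ := hΛ.sur1 (π v) trivial
    obtain ⟨v', hv', h⟩ := (hr _ hi').1 ⟨v, hv, rfl⟩
    refine ⟨v', hv', ?_⟩
    show (π v, π' v') ∈ Λ
    rw [h]; exact hi'
  · intro v' hv'
    obtain ⟨i, hi⟩ := hΛ.sur2 (π' v') trivial
    obtain ⟨v, hv, h⟩ := (hr _ hi).2 ⟨v', hv', rfl⟩
    refine ⟨v, hv, ?_⟩
    show (π v, π' v') ∈ Λ
    rw [h]; exact hi
  · have e1 : A ⊓ (Λ.comap (π.prodMap π')).comap (LinearMap.inl K V V') = A ⊓ LinearMap.ker π := by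
      ext v
      simp only [Submodule.mem_inf, Submodule.mem_comap, LinearMap.inl_apply,
        LinearMap.prodMap_apply, map_zero, LinearMap.mem_ker]
      refine and_congr_right fun _ => ⟨fun h => (hΛ.pi _ h).2 rfl, fun h => ?_⟩
      rw [h]; exact Λ.zero_mem
    have e2 : A' ⊓ (Λ.comap (π.prodMap π')).comap (LinearMap.inr K V V') =
        A' ⊓ LinearMap.ker π' := by
      ext v
      simp only [Submodule.mem_inf, Submodule.mem_comap, LinearMap.inr_apply,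
        LinearMap.prodMap_apply, map_zero, LinearMap.mem_ker]
      refine and_congr_right fun _ => ⟨fun h => (hΛ.pi _ h).1 rfl, fun h => ?_⟩
      rw [h]; exact Λ.zero_mem
    rw [e1, e2]; exact hf

theorem exists_level {Γ0 S : Submodule K (V × V')} (h0 : PI Γ0) (h0S : Γ0 ≤ S)
    {X F W B : Submodule K V} {X' F' W' B' : Submodule K V'} (hX : X ≤ F ⊓ W) (hX' : X' ≤ F' ⊓ W')
    (hB : F ⊔ W ≤ B) (hB' : F' ⊔ W' ≤ B') (h0F : Γ0 ≤ F.prod F') (rX : Resp Γ0 X X')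
    (rW : Resp Γ0 W W') (cX : Cov S X X') (cFW : Cov S (F ⊓ W) (F' ⊓ W')) (cF : Cov S F F')
    (cW : Cov S W W') (cB : Cov S B B') (cT : Cov S ⊤ ⊤) :
    ∃ Γ : Submodule K (V × V'), Γ0 ≤ Γ ∧ Γ ≤ S ∧ GIso Γ ⊤ ⊤ ∧ Resp Γ X X' ∧ Resp Γ F F' ∧
      Resp Γ W W' ∧ Resp Γ B B' := by
  have rF : Resp Γ0 F F' := Resp.of_le h0F
  obtain ⟨ΓX, hX1, hX2, hX3⟩ := exists_ext (Γ := Γ0 ⊓ X.prod X') (h0.mono inf_le_left)
    (inf_le_left.trans h0S) inf_le_right cX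
  obtain ⟨Γm, m1, m2, m3, m4⟩ := exists_step h0S hX3 hX2 hX hX' rX hX1 cFW
  obtain ⟨ΓF, f1, f2, f3, f4⟩ := exists_step h0S m3 m2 inf_le_left inf_le_left (rF.inf rW) m4 cF
  obtain ⟨ΓW, w1, w2, w3, w4⟩ := exists_step h0S m3 m2 inf_le_right inf_le_right
    (rF.inf rW) m4 cW
  have g := f3.glue w3 m3 f1 w1
  obtain ⟨ΓB, b1, b2, b3⟩ := exists_ext g.pi (sup_le f2 w2)
    (g.le.trans (Submodule.prod_mono hB hB')) cB
  obtain ⟨Γ, t1, t2, t3⟩ := exists_ext b3.pi b2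
    (b3.le.trans (Submodule.prod_mono le_top le_top)) cT
  have hFΓ : ΓF ≤ Γ := le_sup_left.trans (b1.trans t1)
  have hWΓ : ΓW ≤ Γ := le_sup_right.trans (b1.trans t1)
  refine ⟨Γ, ?_, t2, t3, ?_, ?_, ?_, ?_⟩
  · exact (le_inf le_rfl h0F).trans (f4.trans hFΓ)
  · exact hX3.resp t3.pi (m1.trans (f1.trans hFΓ))
  · exact f3.resp t3.pi hFΓ
  · exact w3.resp t3.pi hWΓ
  · exact b3.resp t3.pi t1

theorem finrank_map_inf_ker {I : Type*} [AddCommGroup I] [Module K I] (f : V →ₗ[K] I)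
    (A : Submodule K V) :
    finrank K ↥(A.map f) + finrank K ↥(A ⊓ LinearMap.ker f) = finrank K A := by
  have h := LinearMap.finrank_range_add_finrank_ker (f.domRestrict A)
  rw [LinearMap.range_domRestrict] at h
  have h2 : finrank K ↥(LinearMap.ker (f.domRestrict A)) = finrank K ↥(A ⊓ LinearMap.ker f) := by
    rw [LinearMap.ker_domRestrict, ← Submodule.map_comap_subtype,
      Submodule.finrank_map_subtype_eq]
  omega

/-- Extension over a pair of incomparable subspaces. -/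
theorem exists_pair {Γ0 : Submodule K (V × V')} {P Q : Submodule K V}
    {P' Q' : Submodule K V'} {ΓN : Submodule K (V × V')} (hN : GIso ΓN (P ⊓ Q) (P' ⊓ Q'))
    (h0N : Γ0 ⊓ (P ⊓ Q).prod (P' ⊓ Q') ≤ ΓN) (rP : Resp Γ0 P P') (rQ : Resp Γ0 Q Q')
    (fP : finrank K P = finrank K P') (fQ : finrank K Q = finrank K Q')
    (fN : finrank K ↥(P ⊓ Q) = finrank K ↥(P' ⊓ Q')) :
    ∃ Γ : Submodule K (V × V'), ΓN ≤ Γ ∧ GIso Γ (P ⊔ Q) (P' ⊔ Q') ∧
      Γ0 ⊓ (P ⊔ Q).prod (P' ⊔ Q') ≤ Γ ∧ Resp Γ P P' ∧ Resp Γ Q Q' := by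
  have fS : finrank K ↥(P ⊔ Q) = finrank K ↥(P' ⊔ Q') := by
    have e1 := Submodule.finrank_sup_add_finrank_inf_eq P Q
    have e2 := Submodule.finrank_sup_add_finrank_inf_eq P' Q'
    omega
  -- a partial isomorphism modulo one of the two subspaces
  have key : ∀ (R : Submodule K V) (R' : Submodule K V'), R ≤ P ⊔ Q → R' ≤ P' ⊔ Q' →
      Resp Γ0 R R' → finrank K R = finrank K R' →
      ∃ Λ : Submodule K ((V ⧸ R) × (V' ⧸ R')),
        (Γ0 ⊓ (P ⊔ Q).prod (P' ⊔ Q')).map (R.mkQ.prodMap R'.mkQ) ≤ Λ ∧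
        GIso Λ ((P ⊔ Q).map R.mkQ) ((P' ⊔ Q').map R'.mkQ) := by
    intro R R' hR hR' rR fR
    apply exists_ext0
    · rintro _ ⟨x, hx, rfl⟩
      have h1 := rR x hx.1
      simpa using h1
    · rintro _ ⟨x, hx, rfl⟩
      exact ⟨⟨x.1, hx.2.1, rfl⟩, ⟨x.2, hx.2.2, rfl⟩⟩
    · have e1 := finrank_map_inf_ker R.mkQ (P ⊔ Q)
      have e2 := finrank_map_inf_ker R'.mkQ (P' ⊔ Q')
      rw [Submodule.ker_mkQ, inf_eq_right.2 hR] at e1
      rw [Submodule.ker_mkQ, inf_eq_right.2 hR'] at e2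
      omega
  obtain ⟨ΛQ, q1, q2⟩ := key Q Q' le_sup_right le_sup_right rQ fQ
  obtain ⟨ΛP, p1, p2⟩ := key P P' le_sup_left le_sup_left rP fP
  set S : Submodule K (V × V') := ΛQ.comap (Q.mkQ.prodMap Q'.mkQ) ⊓ ΛP.comap (P.mkQ.prodMap P'.mkQ)
    with hS
  have memS : ∀ v v', (v, v') ∈ S ↔ (Q.mkQ v, Q'.mkQ v') ∈ ΛQ ∧ (P.mkQ v, P'.mkQ v') ∈ ΛP := by
    intro v v'; rfl
  have z1 : ∀ v ∈ Q, Q.mkQ v = 0 := fun v hv => by simpa using hv
  have z2 : ∀ v ∈ P, P.mkQ v = 0 := fun v hv => by simpa using hv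
  have z3 : ∀ v ∈ Q', Q'.mkQ v = 0 := fun v hv => by simpa using hv
  have z4 : ∀ v ∈ P', P'.mkQ v = 0 := fun v hv => by simpa using hv
  have hc : Cov S (P ⊔ Q) (P' ⊔ Q') := by
    refine ⟨?_, ?_, ?_⟩
    · intro v hv
      obtain ⟨x, hx, y, hy, rfl⟩ := Submodule.mem_sup.1 hv
      obtain ⟨i, hi⟩ := q2.sur1 (Q.mkQ x) ⟨x, le_sup_left (a := P) hx, rfl⟩
      obtain ⟨w, hw, hw'⟩ := (q2.le hi).2
      obtain ⟨x', hx', y'', hy'', rfl⟩ := Submodule.mem_sup.1 hw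
      obtain ⟨j, hj⟩ := p2.sur1 (P.mkQ y) ⟨y, le_sup_right (a := P) hy, rfl⟩
      obtain ⟨u, hu, hu'⟩ := (p2.le hj).2
      obtain ⟨x'', hx'', y', hy', rfl⟩ := Submodule.mem_sup.1 hu
      refine ⟨x' + y', Submodule.add_mem_sup hx' hy', (memS _ _).2 ⟨?_, ?_⟩⟩
      · rw [map_add, map_add, z1 y hy, z3 y' hy', add_zero, add_zero]
        rw [map_add, z3 y'' hy'', add_zero] at hw'
        rw [hw']; exact hi
      · rw [map_add, map_add, z2 x hx, z4 x' hx', zero_add, zero_add]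
        rw [map_add, z4 x'' hx'', zero_add] at hu'
        rw [hu']; exact hj
    · intro v hv
      obtain ⟨x, hx, y, hy, rfl⟩ := Submodule.mem_sup.1 hv
      obtain ⟨i, hi⟩ := q2.sur2 (Q'.mkQ x) ⟨x, le_sup_left (a := P') hx, rfl⟩
      obtain ⟨w, hw, hw'⟩ := (q2.le hi).1
      obtain ⟨x', hx', y'', hy'', rfl⟩ := Submodule.mem_sup.1 hw
      obtain ⟨j, hj⟩ := p2.sur2 (P'.mkQ y) ⟨y, le_sup_right (a := P') hy, rfl⟩
      obtain ⟨u, hu, hu'⟩ := (p2.le hj).1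
      obtain ⟨x'', hx'', y', hy', rfl⟩ := Submodule.mem_sup.1 hu
      refine ⟨x' + y', Submodule.add_mem_sup hx' hy', (memS _ _).2 ⟨?_, ?_⟩⟩
      · rw [map_add, map_add, z3 y hy, z1 y' hy', add_zero, add_zero]
        rw [map_add, z1 y'' hy'', add_zero] at hw'
        rw [hw']; exact hi
      · rw [map_add, map_add, z4 x hx, z2 x' hx', zero_add, zero_add]
        rw [map_add, z2 x'' hx'', zero_add] at hu'
        rw [hu']; exact hj
    · have e1 : (P ⊔ Q) ⊓ S.comap (LinearMap.inl K V V') = P ⊓ Q := by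
        ext v
        constructor
        · intro hv
          have h1 : (v, (0 : V')) ∈ S := hv.2
          obtain ⟨h2, h3⟩ := (memS _ _).1 h1
          have h4 : Q.mkQ v = 0 := (q2.pi _ h2).2 (by simp)
          have h5 : P.mkQ v = 0 := (p2.pi _ h3).2 (by simp)
          exact ⟨by simpa using h5, by simpa using h4⟩
        · intro hv
          refine ⟨le_sup_left (a := P) hv.1, (memS _ _).2 ⟨?_, ?_⟩⟩
          · show (Q.mkQ v, Q'.mkQ 0) ∈ ΛQ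
            rw [z1 v hv.2, map_zero]; exact ΛQ.zero_mem
          · show (P.mkQ v, P'.mkQ 0) ∈ ΛP
            rw [z2 v hv.1, map_zero]; exact ΛP.zero_mem
      have e2 : (P' ⊔ Q') ⊓ S.comap (LinearMap.inr K V V') = P' ⊓ Q' := by
        ext v
        constructor
        · intro hv
          have h1 : ((0 : V), v) ∈ S := hv.2
          obtain ⟨h2, h3⟩ := (memS _ _).1 h1
          have h4 : Q'.mkQ v = 0 := (q2.pi _ h2).1 (by simp)
          have h5 : P'.mkQ v = 0 := (p2.pi _ h3).1 (by simp)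
          exact ⟨by simpa using h5, by simpa using h4⟩
        · intro hv
          refine ⟨le_sup_left (a := P') hv.1, (memS _ _).2 ⟨?_, ?_⟩⟩
          · show (Q.mkQ 0, Q'.mkQ v) ∈ ΛQ
            rw [z3 v hv.2, map_zero]; exact ΛQ.zero_mem
          · show (P.mkQ 0, P'.mkQ v) ∈ ΛP
            rw [z4 v hv.1, map_zero]; exact ΛP.zero_mem
      rw [e1, e2]; exact fN
  set Γ1 := Γ0 ⊓ (P ⊔ Q).prod (P' ⊔ Q') with hΓ1
  have rN : Resp Γ0 (P ⊓ Q) (P' ⊓ Q') := rP.inf rQ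
  have hpi : PI (Γ1 ⊔ ΓN) := by
    apply PI.glue
    · intro x hx y hy hxy
      have h2 : x.1 ∈ P ⊓ Q := by rw [hxy]; exact (hN.le hy).1
      have h4 : x ∈ ΓN := h0N ⟨hx.1, h2, (rN x hx.1).1 h2⟩
      exact hN.pi.ext1 (v := x.1) h4 (by rw [hxy]; exact hy)
    · intro x hx y hy hxy
      have h2 : x.2 ∈ P' ⊓ Q' := by rw [hxy]; exact (hN.le hy).2
      have h4 : x ∈ ΓN := h0N ⟨hx.1, (rN x hx.1).2 h2, h2⟩
      exact hN.pi.ext2 (v' := x.2) h4 (by rw [hxy]; exact hy)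
  have h1S : Γ1 ≤ S := by
    intro x hx
    exact ⟨q1 ⟨x, hx, rfl⟩, p1 ⟨x, hx, rfl⟩⟩
  have hNS : ΓN ≤ S := by
    intro x hx
    have h1 := hN.le hx
    refine (memS x.1 x.2).2 ⟨?_, ?_⟩
    · rw [z1 _ h1.1.2, z3 _ h1.2.2]; exact ΛQ.zero_mem
    · rw [z2 _ h1.1.1, z4 _ h1.2.1]; exact ΛP.zero_mem
  obtain ⟨Γ, g1, g2, g3⟩ := exists_ext hpi (sup_le h1S hNS)
    (sup_le inf_le_right (hN.le.trans (Submodule.prod_mono (inf_le_left.trans le_sup_left)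
      (inf_le_left.trans le_sup_left)))) hc
  refine ⟨Γ, le_sup_right.trans g1, g3, le_sup_left.trans g1, ?_, ?_⟩
  · intro x hx
    have h1 := p2.pi _ (g2 hx).2
    simpa using h1
  · intro x hx
    have h1 := q2.pi _ (g2 hx).1
    simpa using h1

/-- Extension over a configuration: a chain below a pair of subspaces, the pair, and a chain
above it. -/
theorem exists_config {Γ0 : Submodule K (V × V')} (h0 : PI Γ0)
    (L U : ℕ → Submodule K V) (L' U' : ℕ → Submodule K V')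
    (mL : Monotone L) (mL' : Monotone L') (mU : Monotone U) (mU' : Monotone U') (n m : ℕ)
    {P Q : Submodule K V} {P' Q' : Submodule K V'}
    (hL : L n = P ⊓ Q) (hL' : L' n = P' ⊓ Q') (hU : U 0 = P ⊔ Q) (hU' : U' 0 = P' ⊔ Q')
    (h0U : Γ0 ≤ (U m).prod (U' m))
    (rL : ∀ i ≤ n, Resp Γ0 (L i) (L' i)) (rP : Resp Γ0 P P') (rQ : Resp Γ0 Q Q')
    (rU : ∀ i ≤ m, Resp Γ0 (U i) (U' i))
    (fL : ∀ i ≤ n, finrank K (L i) = finrank K (L' i)) (fP : finrank K P = finrank K P')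
    (fQ : finrank K Q = finrank K Q') (fU : ∀ i ≤ m, finrank K (U i) = finrank K (U' i)) :
    ∃ Γ : Submodule K (V × V'), Γ0 ≤ Γ ∧ GIso Γ (U m) (U' m) ∧ (∀ i ≤ n, Resp Γ (L i) (L' i)) ∧
      Resp Γ P P' ∧ Resp Γ Q Q' ∧ (∀ i ≤ m, Resp Γ (U i) (U' i)) := by
  obtain ⟨ΓN, -, n2, n3, n4⟩ := exists_chain h0 le_top L L' mL mL' n rL
    (fun i hi => cov_top (fL i hi))
  rw [hL, hL'] at n2 n3
  have fN := fL n le_rfl
  rw [hL, hL'] at fN
  obtain ⟨Γp, p1, p2, p3, p4, p5⟩ := exists_pair n2 n3 rP rQ fP fQ fN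
  have r0 := rU 0 (Nat.zero_le m)
  rw [hU, hU'] at r0
  have hpi : PI (Γ0 ⊔ Γp) := by
    apply PI.glue
    · intro x hx y hy hxy
      have h2 : x.1 ∈ P ⊔ Q := by rw [hxy]; exact (p2.le hy).1
      have h4 : x ∈ Γp := p3 ⟨hx, h2, (r0 x hx).1 h2⟩
      exact p2.pi.ext1 (v := x.1) h4 (by rw [hxy]; exact hy)
    · intro x hx y hy hxy
      have h2 : x.2 ∈ P' ⊔ Q' := by rw [hxy]; exact (p2.le hy).2
      have h4 : x ∈ Γp := p3 ⟨hx, (r0 x hx).2 h2, h2⟩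
      exact p2.pi.ext2 (v' := x.2) h4 (by rw [hxy]; exact hy)
  have hUi : ∀ i, P ⊔ Q ≤ U i := fun i => hU ▸ mU (Nat.zero_le i)
  have hUi' : ∀ i, P' ⊔ Q' ≤ U' i := fun i => hU' ▸ mU' (Nat.zero_le i)
  have rU2 : ∀ i ≤ m, Resp (Γ0 ⊔ Γp) (U i) (U' i) := by
    intro i hi x hx
    obtain ⟨y, hy, z, hz, rfl⟩ := Submodule.mem_sup.1 hx
    have h1 : z.1 ∈ U i := hUi i (p2.le hz).1
    have h2 : z.2 ∈ U' i := hUi' i (p2.le hz).2
    have h3 : (y + z).1 ∈ U i ↔ y.1 ∈ U i := Submodule.add_mem_iff_left _ h1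
    have h4 : (y + z).2 ∈ U' i ↔ y.2 ∈ U' i := Submodule.add_mem_iff_left _ h2
    rw [h3, h4]
    exact rU i hi y hy
  obtain ⟨Γ, -, g2, g3, g4⟩ := exists_chain hpi le_top U U' mU mU' m rU2
    (fun i hi => cov_top (fU i hi))
  have hle : Γ0 ⊔ Γp ≤ Γ := (le_inf le_rfl (sup_le h0U (p2.le.trans
    (Submodule.prod_mono (hUi m) (hUi' m))))).trans g3
  have hpΓ : Γp ≤ Γ := le_sup_right.trans hle
  refine ⟨Γ, le_sup_left.trans hle, g2, ?_, ?_, ?_, g4⟩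
  · intro i hi
    refine Resp.of_sub g2.pi n2 (p1.trans hpΓ) ?_ ?_ (n4 i hi)
    · rw [← hL]; exact mL hi
    · rw [← hL']; exact mL' hi
  · exact Resp.of_sub g2.pi p2 hpΓ le_sup_left le_sup_left p4
  · exact Resp.of_sub g2.pi p2 hpΓ le_sup_right le_sup_right p5

/-- Flags in a configuration. -/
theorem exists_flag (L T C : ℕ → Submodule K V) (L' T' C' : ℕ → Submodule K V')
    (mL : Monotone L) (mL' : Monotone L') (mT : Monotone T) (mT' : Monotone T')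
    (mC : Monotone C) (mC' : Monotone C') (a n m : ℕ) (hnm : n ≤ m)
    {P Q : Submodule K V} {P' Q' : Submodule K V'}
    (hL : L a = P ⊓ Q) (hL' : L' a = P' ⊓ Q')
    (hT : ∀ i ≤ n, T i = (P ⊓ C i) ⊔ (Q ⊓ C i)) (hT' : ∀ i ≤ n, T' i = (P' ⊓ C' i) ⊔ (Q' ⊓ C' i))
    (hTm : T m = ⊤) (hTm' : T' m = ⊤)
    (fL : ∀ i ≤ n, ∀ k ≤ a, finrank K ↥(L k ⊓ C i) = finrank K ↥(L' k ⊓ C' i))
    (fP : ∀ i ≤ n, finrank K ↥(P ⊓ C i) = finrank K ↥(P' ⊓ C' i))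
    (fQ : ∀ i ≤ n, finrank K ↥(Q ⊓ C i) = finrank K ↥(Q' ⊓ C' i))
    (fT : ∀ i ≤ n, ∀ j ≤ m, finrank K ↥(T j ⊓ C i) = finrank K ↥(T' j ⊓ C' i)) :
    ∀ i ≤ n, ∃ Γ : Submodule K (V × V'), GIso Γ (C i) (C' i) ∧ (∀ k ≤ a, Resp Γ (L k) (L' k)) ∧
      Resp Γ P P' ∧ Resp Γ Q Q' ∧ (∀ j ≤ m, i ≤ j → Resp Γ (T j) (T' j)) ∧
      (∀ j ≤ i, Resp Γ (C j) (C' j)) := by
  have step : ∀ i ≤ n, ∀ Γ0 : Submodule K (V × V'), PI Γ0 → Γ0 ≤ (C i).prod (C' i) →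
      (∀ k ≤ a, Resp Γ0 (L k) (L' k)) → Resp Γ0 P P' → Resp Γ0 Q Q' →
      (∀ j ≤ m, i ≤ j → Resp Γ0 (T j) (T' j)) →
      ∃ Γ : Submodule K (V × V'), Γ0 ≤ Γ ∧ GIso Γ (C i) (C' i) ∧
        (∀ k ≤ a, Resp Γ (L k) (L' k)) ∧
        Resp Γ P P' ∧ Resp Γ Q Q' ∧ (∀ j ≤ m, i ≤ j → Resp Γ (T j) (T' j)) := by
    intro i hi Γ0 h0 h0C rL rP rQ rT
    have rC : Resp Γ0 (C i) (C' i) := Resp.of_le h0C
    have hTi : T i ≤ C i := by rw [hT i hi]; exact sup_le inf_le_right inf_le_right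
    have hTi' : T' i ≤ C' i := by rw [hT' i hi]; exact sup_le inf_le_right inf_le_right
    have him : i ≤ m := hi.trans hnm
    have e1 : T (i + (m - i)) ⊓ C i = C i := by
      rw [Nat.add_sub_cancel' him, hTm, top_inf_eq]
    have e2 : T' (i + (m - i)) ⊓ C' i = C' i := by
      rw [Nat.add_sub_cancel' him, hTm', top_inf_eq]
    obtain ⟨Γ, g1, g2, g3, g4, g5, g6⟩ := exists_config (Γ0 := Γ0) h0
      (fun k => L k ⊓ C i) (fun k => T (i + k) ⊓ C i) (fun k => L' k ⊓ C' i)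
      (fun k => T' (i + k) ⊓ C' i)
      (fun _ _ h => inf_le_inf_right _ (mL h)) (fun _ _ h => inf_le_inf_right _ (mL' h))
      (fun _ _ h => inf_le_inf_right _ (mT (Nat.add_le_add_left h i)))
      (fun _ _ h => inf_le_inf_right _ (mT' (Nat.add_le_add_left h i)))
      a (m - i) (P := P ⊓ C i) (Q := Q ⊓ C i) (P' := P' ⊓ C' i) (Q' := Q' ⊓ C' i)
      (by show L a ⊓ C i = _; rw [hL, inf_inf_distrib_right])
      (by show L' a ⊓ C' i = _; rw [hL', inf_inf_distrib_right])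
      (by show T (i + 0) ⊓ C i = _; rw [add_zero, inf_eq_left.2 hTi, hT i hi])
      (by show T' (i + 0) ⊓ C' i = _; rw [add_zero, inf_eq_left.2 hTi', hT' i hi])
      (by show Γ0 ≤ (T (i + (m - i)) ⊓ C i).prod (T' (i + (m - i)) ⊓ C' i); rw [e1, e2]; exact h0C)
      (fun k hk => (rL k hk).inf rC) (rP.inf rC) (rQ.inf rC)
      (fun k hk => (rT (i + k) (by omega) (by omega)).inf rC)
      (fun k hk => fL i hi k hk) (fP i hi) (fQ i hi)
      (fun k hk => fT i hi (i + k) (by omega))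
    simp only [e1, e2] at g2
    refine ⟨Γ, g1, g2, fun k hk => Resp.of_inf g2.le (g3 k hk), Resp.of_inf g2.le g4,
      Resp.of_inf g2.le g5, ?_⟩
    intro j hj hij
    have h1 := g6 (j - i) (by omega)
    simp only [Nat.add_sub_cancel' hij] at h1
    exact Resp.of_inf g2.le h1
  intro i
  induction i with
  | zero =>
    intro hi
    obtain ⟨Γ, g1, g2, g3, g4, g5, g6⟩ := step 0 hi ⊥ PI.bot bot_le (fun k _ => Resp.bot _ _)
      (Resp.bot _ _) (Resp.bot _ _) (fun j _ _ => Resp.bot _ _)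
    refine ⟨Γ, g2, g3, g4, g5, g6, ?_⟩
    intro j hj
    obtain rfl : j = 0 := by omega
    exact Resp.of_le g2.le
  | succ i ih =>
    intro hi
    obtain ⟨Γ0, g2, g3, g4, g5, g6, g7⟩ := ih (by omega)
    obtain ⟨Γ, k1, k2, k3, k4, k5, k6⟩ := step (i + 1) hi Γ0 g2.pi
      (g2.le.trans (Submodule.prod_mono (mC (Nat.le_succ i)) (mC' (Nat.le_succ i)))) g3 g4 g5
      (fun j hj hij => g6 j hj (by omega))
    refine ⟨Γ, k2, k3, k4, k5, k6, ?_⟩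
    intro j hj
    rcases Nat.lt_or_ge i j with h | h
    · obtain rfl : j = i + 1 := by omega
      exact Resp.of_le k2.le
    · exact Resp.of_sub k2.pi g2 k1 (mC h) (mC' h) (g7 j h)

end Weyman
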